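import Pool.Agent.H83.GS.TX
import Pool.Agent.H25.LF.Targets

/-!
# The weight of the prime numbers of a residue class
-/

set_option autoImplicit false

open Finset Pool.Agent.H6.N4D

namespace Pool.Agent.H83.GS

/-- large moduli: all integers of the class -/
theorem btw_large (P : ℝ) (b : ℕ) (hP : 1 ≤ P) (hb1 : 1 ≤ b) (A : Finset ℕ)
    (hA : ∀ p ∈ A, P < p ∧ (p : ℝ) ≤ P ^ 2)
    (hc : ∀ p ∈ A, ∀ q ∈ A, (p : ℤ) ≡ q [ZMOD b]) :
    ∑ p ∈ A, 1 / (p : ℝ) ≤ 1 / P + (1 + 2 * Real.log P) / b := by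
  have hb0 : (0 : ℝ) < b := by exact_mod_cast hb1
  have hl0 : 0 ≤ Real.log P := Real.log_nonneg hP
  rcases A.eq_empty_or_nonempty with rfl | hne
  · rw [sum_empty]
    positivity
  · obtain ⟨m, hm, hmin⟩ : ∃ m ∈ A, ∀ p ∈ A, m ≤ p :=
      ⟨A.min' hne, A.min'_mem hne, fun p hp => A.min'_le p hp⟩
    have hdvd : ∀ p ∈ A, b ∣ p - m := by
      intro p hp
      have h1 := hc m hm p hp
      have h2 := (Int.modEq_iff_dvd.1 h1)
      have h3 : ((p - m : ℕ) : ℤ) = (p : ℤ) - m := by
        rw [Nat.cast_sub (hmin p hp)]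
      rw [← h3] at h2
      exact_mod_cast h2
    set f : ℕ → ℕ := fun p => (p - m) / b with hf
    have hfp : ∀ p ∈ A, p = m + b * f p := by
      intro p hp
      have h1 := Nat.mul_div_cancel' (hdvd p hp)
      have h2 := hmin p hp
      rw [hf]
      simp only
      omega
    set M : ℕ := ⌊P ^ 2⌋₊ with hM
    have hM1 : 1 ≤ M := by
      rw [hM, Nat.one_le_floor_iff]
      nlinarith
    have h1 : ∑ p ∈ A.erase m, 1 / (p : ℝ) ≤ ∑ k ∈ Icc 1 M, 1 / ((k : ℝ) * b) := by
      have h2 : ∑ p ∈ A.erase m, 1 / (p : ℝ) ≤ ∑ p ∈ A.erase m, 1 / ((f p : ℝ) * b) := by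
        refine sum_le_sum fun p hp => ?_
        rw [mem_erase] at hp
        have h3 := hfp p hp.2
        have h4 : 1 ≤ f p := by
          rw [Nat.one_le_iff_ne_zero]
          intro h5
          rw [h5, mul_zero, add_zero] at h3
          exact hp.1 h3
        have h5 : (1 : ℝ) ≤ f p := by exact_mod_cast h4
        have h6 : (p : ℝ) = m + b * f p := by exact_mod_cast h3
        apply one_div_le_one_div_of_le (by positivity)
        rw [h6]
        have : (0 : ℝ) ≤ m := Nat.cast_nonneg m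
        linarith
      have h3 : ∑ p ∈ A.erase m, 1 / ((f p : ℝ) * b) =
          ∑ k ∈ (A.erase m).image f, 1 / ((k : ℝ) * b) := by
        rw [sum_image]
        intro p hp q hq hpq
        rw [mem_coe, mem_erase] at hp hq
        rw [hfp p hp.2, hfp q hq.2, hpq]
      refine h2.trans (h3.le.trans ?_)
      refine sum_le_sum_of_subset_of_nonneg ?_ fun k _ _ => by positivity
      intro k hk
      rw [mem_image] at hk
      obtain ⟨p, hp, rfl⟩ := hk
      rw [mem_erase] at hp
      have h4 := hfp p hp.2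
      rw [mem_Icc]
      constructor
      · rw [Nat.one_le_iff_ne_zero]
        intro h5
        rw [h5, mul_zero, add_zero] at h4
        exact hp.1 h4
      · rw [hM]
        apply Nat.le_floor
        refine le_trans ?_ (hA p hp.2).2
        have h5 : f p ≤ p := by
          calc f p ≤ b * f p := Nat.le_mul_of_pos_left _ hb1
            _ ≤ p := by omega
        exact_mod_cast h5
    have h2 : ∑ k ∈ Icc 1 M, 1 / ((k : ℝ) * b) ≤ (1 + 2 * Real.log P) / b := by
      have h3 : ∑ k ∈ Icc 1 M, 1 / ((k : ℝ) * b) = (∑ k ∈ Icc 1 M, (k : ℝ)⁻¹) / b := by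
        rw [sum_div]
        refine sum_congr rfl fun k _ => ?_
        rw [one_div, mul_inv, div_eq_mul_inv]
      have h4 : ∑ k ∈ Icc 1 M, (k : ℝ)⁻¹ ≤ 1 + Real.log M := by
        have h5 := harmonic_le_one_add_log M
        rw [harmonic_eq_sum_Icc] at h5
        push_cast at h5
        exact h5
      have h5 : Real.log M ≤ 2 * Real.log P := by
        have h6 : (M : ℝ) ≤ P ^ 2 := Nat.floor_le (by positivity)
        have h7 := Real.log_le_log (by exact_mod_cast hM1) h6
        rw [Real.log_pow] at h7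
        exact_mod_cast h7
      rw [h3]
      apply div_le_div_of_nonneg_right _ hb0.le
      linarith
    have h3 : 1 / (m : ℝ) ≤ 1 / P := one_div_le_one_div_of_le (by linarith) (hA m hm).1.le
    rw [← add_sum_erase A _ hm]
    linarith

/-- small moduli: the Brun-Titchmarsh inequality on dyadic blocks -/
theorem btw_small (P Y : ℝ) (b : ℕ) (hP : 16 ≤ P) (hY : 2 ≤ Y) (hYP : Y ^ 2 ≤ P) (hb1 : 1 ≤ b)
    (hbP : (b : ℝ) ^ 2 ≤ P) (hL : 1 ≤ Real.log P)
    (hBT : ∀ (x : ℝ) (d a : ℕ), 1 ≤ d → Y * d ≤ x →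
      (((Pool.Agent.H25.LF.PR x).filter (fun p => p % d = a % d)).card : ℝ) ≤
        (2 + 1) * x / (d.totient * Real.log (x / d)))
    (A : Finset ℕ) (hA : ∀ p ∈ A, P < p ∧ (p : ℝ) ≤ P ^ 2 ∧ p.Prime)
    (hc : ∀ p ∈ A, ∀ q ∈ A, (p : ℤ) ≡ q [ZMOD b]) :
    ∑ p ∈ A, 1 / (p : ℝ) ≤ 48 / (Nat.totient b : ℝ) := by
  have hb0 : (0 : ℝ) < b := by exact_mod_cast hb1
  have hφ : 0 < Nat.totient b := Nat.totient_pos.2 hb1
  have hφr : (0 : ℝ) < Nat.totient b := by exact_mod_cast hφ
  rcases A.eq_empty_or_nonempty with rfl | ⟨p₀, hp₀⟩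
  · rw [sum_empty]
    positivity
  have hmod : ∀ p ∈ A, p % b = p₀ % b := by
    intro p hp
    have h1 := hc p hp p₀ hp₀
    have h2 : p ≡ p₀ [MOD b] := Int.natCast_modEq_iff.1 h1
    exact h2
  set P₀ : ℕ := ⌊P⌋₊ with hP₀
  have hP₀le : (P₀ : ℝ) ≤ P := Nat.floor_le (by linarith)
  have hP₀gt : P < P₀ + 1 := Nat.lt_floor_add_one P
  have hP₀1 : 1 ≤ P₀ := by
    rw [hP₀, Nat.one_le_floor_iff]
    linarith
  have hP₀r : (1 : ℝ) ≤ P₀ := by exact_mod_cast hP₀1
  -- the block of a prime number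
  set j : ℕ → ℕ := fun p => Nat.log 2 (p / P₀) with hj
  have hj1 : ∀ p ∈ A, 2 ^ j p * P₀ ≤ p ∧ p < 2 ^ (j p + 1) * P₀ := by
    intro p hp
    have h1 : P₀ ≤ p := by
      have h2 := (hA p hp).1
      rw [hP₀]
      exact Nat.floor_le_of_le h2.le
    have h2 : p / P₀ ≠ 0 := by
      have := Nat.div_pos h1 hP₀1
      omega
    constructor
    · have h3 := Nat.pow_log_le_self 2 h2
      calc 2 ^ j p * P₀ ≤ p / P₀ * P₀ := Nat.mul_le_mul_right _ h3
        _ ≤ p := Nat.div_mul_le_self _ _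
    · have h3 := Nat.lt_pow_succ_log_self (by norm_num : 1 < 2) (p / P₀)
      exact (Nat.div_lt_iff_lt_mul hP₀1).1 h3
  set J : ℕ := ⌊3 * Real.log P⌋₊ + 1 with hJ
  have hJle : (J : ℝ) ≤ 4 * Real.log P := by
    have h1 : ((⌊3 * Real.log P⌋₊ : ℕ) : ℝ) ≤ 3 * Real.log P := Nat.floor_le (by positivity)
    rw [hJ]
    push_cast
    linarith
  have hjJ : ∀ p ∈ A, j p ∈ range J := by
    intro p hp
    rw [mem_range, hJ, Nat.lt_succ_iff]
    apply Nat.le_floor
    have h1 : ((2 ^ j p * P₀ : ℕ) : ℝ) ≤ P ^ 2 :=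
      le_trans (by exact_mod_cast (hj1 p hp).1) (hA p hp).2.1
    push_cast at h1
    have h2 : (2 : ℝ) ^ j p ≤ 2 * P := by
      have h3 : P / 2 ≤ P₀ := by linarith
      have h4 : (2 : ℝ) ^ j p * (P / 2) ≤ P ^ 2 :=
        (mul_le_mul_of_nonneg_left h3 (by positivity)).trans h1
      have h5 : (2 : ℝ) ^ j p * (P / 2) ≤ 2 * P * (P / 2) := by linarith [sq P]
      exact le_of_mul_le_mul_right h5 (by linarith)
    have h3 := Real.log_le_log (by positivity) h2
    rw [Real.log_pow, Real.log_mul (by norm_num) (by linarith)] at h3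
    have h4 := Real.log_two_gt_d9
    have h5 := Real.log_two_lt_d9
    have h6 : (0 : ℝ) ≤ j p := Nat.cast_nonneg _
    nlinarith
  -- one block
  have hblock : ∀ i ∈ range J, ∑ p ∈ A.filter (fun p => j p = i), 1 / (p : ℝ) ≤
      12 / (Nat.totient b * Real.log P) := by
    intro i _
    set x : ℝ := 2 ^ (i + 1) * P₀ with hx
    have h2i : (1 : ℝ) ≤ 2 ^ i := one_le_pow₀ (by norm_num)
    have hxP : P ≤ x := by
      rw [hx, pow_succ]
      nlinarith
    have hx0 : 0 < x := by linarith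
    have hbs : (b : ℝ) ≤ Real.sqrt P := Real.le_sqrt_of_sq_le hbP
    have hYs : Y ≤ Real.sqrt P := Real.le_sqrt_of_sq_le hYP
    have hss : Real.sqrt P * Real.sqrt P = P := Real.mul_self_sqrt (by linarith)
    have hYb : Y * b ≤ x := by
      refine le_trans ?_ hxP
      rw [← hss]
      exact mul_le_mul hYs hbs hb0.le (Real.sqrt_nonneg _)
    have h1 := hBT x b p₀ hb1 hYb
    have hlog : Real.log P / 2 ≤ Real.log (x / b) := by
      rw [← Real.log_sqrt (by linarith)]
      apply Real.log_le_log (Real.sqrt_pos.2 (by linarith))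
      rw [le_div_iff₀ hb0]
      calc Real.sqrt P * b ≤ Real.sqrt P * Real.sqrt P :=
            mul_le_mul_of_nonneg_left hbs (Real.sqrt_nonneg _)
        _ = P := hss
        _ ≤ x := hxP
    have h2 : ((A.filter (fun p => j p = i)).card : ℝ) ≤
        (2 + 1) * x / (b.totient * Real.log (x / b)) := by
      refine le_trans ?_ h1
      have h3 : A.filter (fun p => j p = i) ⊆
          (Pool.Agent.H25.LF.PR x).filter (fun p => p % b = p₀ % b) := by
        intro p hp
        rw [mem_filter] at hp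
        rw [mem_filter]
        refine ⟨?_, hmod p hp.1⟩
        unfold Pool.Agent.H25.LF.PR
        rw [mem_filter, mem_Icc]
        refine ⟨⟨(hA p hp.1).2.2.one_lt.le, ?_⟩, (hA p hp.1).2.2⟩
        apply Nat.le_floor
        have h4 := (hj1 p hp.1).2
        rw [hp.2] at h4
        rw [hx]
        exact_mod_cast h4.le
      exact_mod_cast card_le_card h3
    have h3 : (2 + 1) * x / (b.totient * Real.log (x / b)) ≤
        6 * x / (b.totient * Real.log P) := by
      have h4 : 0 < Real.log (x / b) := by linarith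
      rw [div_le_div_iff₀ (by positivity) (by positivity)]
      have h5 : 0 ≤ x * (b.totient : ℝ) := by positivity
      have h6 := mul_le_mul_of_nonneg_left hlog h5
      nlinarith
    have h4 : ∑ p ∈ A.filter (fun p => j p = i), 1 / (p : ℝ) ≤
        (A.filter (fun p => j p = i)).card • (2 / x) := by
      refine sum_le_card_nsmul _ _ _ fun p hp => ?_
      rw [mem_filter] at hp
      have h5 := (hj1 p hp.1).1
      rw [hp.2] at h5
      have h6 : x / 2 ≤ p := by
        have h7 : ((2 ^ i * P₀ : ℕ) : ℝ) ≤ p := by exact_mod_cast h5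
        push_cast at h7
        rw [hx, pow_succ]
        linarith
      have h7 : 1 / (p : ℝ) ≤ 1 / (x / 2) := one_div_le_one_div_of_le (by positivity) h6
      have h8 : 1 / (x / 2) = 2 / x := by field_simp
      linarith
    rw [nsmul_eq_mul] at h4
    refine h4.trans ?_
    calc ((A.filter (fun p => j p = i)).card : ℝ) * (2 / x) ≤
          6 * x / (b.totient * Real.log P) * (2 / x) :=
            mul_le_mul_of_nonneg_right (h2.trans h3) (by positivity)
      _ = 12 / (Nat.totient b * Real.log P) := by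
          field_simp
          norm_num
  have hsum : ∑ i ∈ range J, ∑ p ∈ A.filter (fun p => j p = i), 1 / (p : ℝ) =
      ∑ p ∈ A, 1 / (p : ℝ) := sum_fiberwise_of_maps_to hjJ _
  rw [← hsum]
  calc ∑ i ∈ range J, ∑ p ∈ A.filter (fun p => j p = i), 1 / (p : ℝ)
      ≤ ∑ i ∈ range J, 12 / (Nat.totient b * Real.log P) := sum_le_sum hblock
    _ = J * (12 / (Nat.totient b * Real.log P)) := by rw [sum_const, card_range, nsmul_eq_mul]
    _ ≤ 4 * Real.log P * (12 / (Nat.totient b * Real.log P)) :=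
        mul_le_mul_of_nonneg_right hJle (by positivity)
    _ = 48 / (Nat.totient b : ℝ) := by
        have : Real.log P ≠ 0 := by linarith
        field_simp
        norm_num

theorem pf_BTW (hBTS : Pool.Agent.H25.LF.T_BTS) : T_BTW := by
  obtain ⟨Y, hY, hBT⟩ := hBTS 1 one_pos
  obtain ⟨X₁, hX₁⟩ := LL_large (max 136 (2 * Y + 4))
  refine ⟨48, X₁, by norm_num, ?_⟩
  intro X hX b hb1 A hA hc
  have hL := hX₁ X hX
  have hL1 : 136 ≤ LL X := (le_max_left _ _).trans hL
  have hL2 : 2 * Y + 4 ≤ LL X := (le_max_right _ _).trans hL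
  have hPP : PP X = Real.exp (LL X) := rfl
  have hlogP : Real.log (PP X) = LL X := log_PP X
  have hP0 : 0 < PP X := PP_pos X
  have hP16 : 16 ≤ PP X := by
    have := Real.add_one_le_exp (LL X)
    rw [hPP]
    linarith
  have hA' : ∀ p ∈ A, PP X < p ∧ (p : ℝ) ≤ PP X ^ 2 ∧ p.Prime := fun p hp =>
    (mem_Pr (by positivity)).1 (hA hp)
  have hφ : 0 < Nat.totient b := Nat.totient_pos.2 hb1
  have hφr : (0 : ℝ) < Nat.totient b := by exact_mod_cast hφ
  have hr0 : 0 < PP X ^ (1 / 4 : ℝ) := Real.rpow_pos_of_pos hP0 _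
  rcases le_or_gt ((b : ℝ) ^ 2) (PP X) with hb | hb
  · have hYP : Y ^ 2 ≤ PP X := by
      have h1 : Y ≤ Real.exp (LL X / 2) := by
        have := Real.add_one_le_exp (LL X / 2)
        linarith
      have h2 := pow_le_pow_left₀ (by linarith) h1 2
      rw [← Real.exp_nat_mul] at h2
      rw [hPP]
      refine h2.trans (Real.exp_le_exp.2 ?_)
      push_cast
      linarith
    have h1 := btw_small (PP X) Y b hP16 hY hYP hb1 hb (by rw [hlogP]; linarith) hBT A hA' hc
    have h2 : 0 < 1 / PP X ^ (1 / 4 : ℝ) := by positivity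
    linarith
  · have h1 := btw_large (PP X) b (by linarith) hb1 A (fun p hp => ⟨(hA' p hp).1, (hA' p hp).2.1⟩) hc
    rw [hlogP] at h1
    -- `s = P ^ (1/4)`
    set s : ℝ := PP X ^ (1 / 4 : ℝ) with hs
    have hs4 : s ^ 4 = PP X := by
      rw [hs, ← Real.rpow_natCast, ← Real.rpow_mul hP0.le]
      norm_num
    have hsb : s ^ 2 ≤ b := by
      have h2 : (s ^ 2) ^ 2 ≤ (b : ℝ) ^ 2 := by
        rw [← pow_mul, hs4]
        exact hb.le
      exact le_of_sq_le_sq h2 (Nat.cast_nonneg b) |>.trans le_rfl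
    have hsL : 2 * (1 + 2 * LL X) ≤ s := by
      have h2 : s = Real.exp (LL X / 4) := by
        rw [hs, hPP, ← Real.exp_mul]
        congr 1
        ring
      have h3 := Real.quadratic_le_exp_of_nonneg (x := LL X / 4) (by linarith)
      rw [h2]
      nlinarith
    have hs1 : 1 ≤ s := by linarith
    have h2 : 1 / PP X ≤ 1 / (2 * s) := by
      apply one_div_le_one_div_of_le (by positivity)
      rw [← hs4]
      have h3 : s ^ 2 ≤ s ^ 4 := pow_le_pow_right₀ hs1 (by norm_num)
      nlinarith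
    have h3 : (1 + 2 * LL X) / b ≤ 1 / (2 * s) := by
      rw [div_le_div_iff₀ (by exact_mod_cast hb1) (by positivity)]
      nlinarith
    have h4 : 1 / (2 * s) + 1 / (2 * s) = 1 / s := by
      field_simp
      norm_num
    have h5 : 0 ≤ 48 / (Nat.totient b : ℝ) := by positivity
    linarith

end Pool.Agent.H83.GS
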