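import Pool.Agent.H83.GS.TX
import Pool.Agent.H81.N4D.CUT

/-!
# FINX: no function is multiplied by `-χ(p)` along the edges
-/

set_option autoImplicit false

open Finset Pool.Agent.H6.N4D

namespace Pool.Agent.H83.GS

/-- the cut-off costs little, twisted form -/
theorem cut_x (hCHI : T_CHI) (S : Par) (hS : S.Ok) (hL : 0 < S.L) (M : ℝ) (f : ℤ → ℂ)
    (hf : ∀ t, ‖f t‖ ≤ M) (l : ℤ) (s : ℂ) (hs1 : ‖s‖ = 1) :
    ∑' t : ℤ, ‖(chi S (t + l) : ℂ) * f (t + l) + s * ((chi S t : ℂ) * f t)‖ ^ 2 ≤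
      2 * ∑ t ∈ S.I.filter (fun t => t - l ∈ S.I), ‖f (t - l) + (starRingEnd ℂ) s * f t‖ ^ 2 +
        4 * M ^ 2 * (|(l : ℝ)| * S.h / (S.K * S.L)) ^ 2 * S.N := by
  classical
  obtain ⟨h01, hout, -, hlip⟩ := hCHI S hS hL
  have hM : 0 ≤ M := (norm_nonneg _).trans (hf 0)
  have hN : 0 ≤ S.N := by
    have h1 : 0 ≤ S.N * S.h := by
      refine le_trans ?_ hS.hI1
      positivity
    exact nonneg_of_mul_nonneg_left h1 hS.hh
  have hcard := Par.card_I hN
  have hss : (starRingEnd ℂ) s * s = 1 := by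
    rw [mul_comm, Complex.mul_conj, ← Complex.sq_norm, hs1]
    simp
  set Lip : ℝ := |(l : ℝ)| * S.h / (S.K * S.L) with hLip
  have hLip0 : 0 ≤ Lip := by
    have := hS.hh
    positivity
  set W : Finset ℤ := S.I ∪ S.I.image (fun t => t - l) with hW
  have hmemW : ∀ t, t ∈ W ↔ t ∈ S.I ∨ t + l ∈ S.I := by
    intro t
    rw [hW, Finset.mem_union, Finset.mem_image]
    constructor
    · rintro (h | ⟨u, hu, rfl⟩)
      · exact Or.inl h
      · right
        rwa [sub_add_cancel]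
    · rintro (h | h)
      · exact Or.inl h
      · exact Or.inr ⟨t + l, h, by rw [add_sub_cancel_right]⟩
  have hnc : ∀ t, ‖(chi S t : ℂ)‖ = chi S t := fun t => by
    rw [Complex.norm_real, Real.norm_eq_abs, abs_of_nonneg (h01 t).1]
  have hpt : ∀ t ∈ W, ‖(chi S (t + l) : ℂ) * f (t + l) + s * ((chi S t : ℂ) * f t)‖ ^ 2 ≤
      (if t ∈ S.I ∧ t + l ∈ S.I then 2 * ‖f (t + l) + s * f t‖ ^ 2 else 0) +
        2 * (Lip * M) ^ 2 := by
    intro t ht
    have hLM : 0 ≤ Lip * M := mul_nonneg hLip0 hM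
    by_cases h1 : t ∈ S.I
    · by_cases h2 : t + l ∈ S.I
      · rw [if_pos ⟨h1, h2⟩]
        have h3 : (chi S (t + l) : ℂ) * f (t + l) + s * ((chi S t : ℂ) * f t) =
            (chi S t : ℂ) * (f (t + l) + s * f t) +
              (((chi S (t + l) - chi S t : ℝ)) : ℂ) * f (t + l) := by
          push_cast
          ring
        have h4 : ‖(chi S (t + l) : ℂ) * f (t + l) + s * ((chi S t : ℂ) * f t)‖ ≤
            ‖f (t + l) + s * f t‖ + Lip * M := by
          rw [h3]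
          refine (norm_add_le _ _).trans (add_le_add ?_ ?_)
          · rw [norm_mul, hnc]
            exact mul_le_of_le_one_left (norm_nonneg _) (h01 t).2
          · rw [norm_mul, Complex.norm_real, Real.norm_eq_abs]
            exact mul_le_mul (hlip t l) (hf _) (norm_nonneg _) hLip0
        calc ‖(chi S (t + l) : ℂ) * f (t + l) + s * ((chi S t : ℂ) * f t)‖ ^ 2
            ≤ (‖f (t + l) + s * f t‖ + Lip * M) ^ 2 :=
              pow_le_pow_left₀ (norm_nonneg _) h4 2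
          _ ≤ 2 * ‖f (t + l) + s * f t‖ ^ 2 + 2 * (Lip * M) ^ 2 :=
              Pool.Agent.H81.N4D.sq_add_le _ _
      · rw [if_neg (fun h => h2 h.2), zero_add]
        have h0 : chi S (t + l) = 0 := hout _ h2
        have h5 : |chi S (t + l) - chi S t| = chi S t := by
          rw [h0, zero_sub, abs_neg, abs_of_nonneg (h01 t).1]
        have h4 : ‖(chi S (t + l) : ℂ) * f (t + l) + s * ((chi S t : ℂ) * f t)‖ ≤ Lip * M := by
          rw [h0, Complex.ofReal_zero, zero_mul, zero_add, norm_mul, hs1, one_mul, norm_mul, hnc,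
            ← h5]
          exact mul_le_mul (hlip t l) (hf _) (norm_nonneg _) hLip0
        have h6 := pow_le_pow_left₀ (norm_nonneg _) h4 2
        have h7 : 0 ≤ (Lip * M) ^ 2 := sq_nonneg _
        linarith
    · have h2 : t + l ∈ S.I := ((hmemW t).1 ht).resolve_left h1
      rw [if_neg (fun h => h1 h.1), zero_add]
      have h0 : chi S t = 0 := hout _ h1
      have h5 : |chi S (t + l) - chi S t| = chi S (t + l) := by
        rw [h0, sub_zero, abs_of_nonneg (h01 _).1]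
      have h4 : ‖(chi S (t + l) : ℂ) * f (t + l) + s * ((chi S t : ℂ) * f t)‖ ≤ Lip * M := by
        rw [h0, Complex.ofReal_zero, zero_mul, mul_zero, add_zero, norm_mul, hnc, ← h5]
        exact mul_le_mul (hlip t l) (hf _) (norm_nonneg _) hLip0
      have h6 := pow_le_pow_left₀ (norm_nonneg _) h4 2
      have h7 : 0 ≤ (Lip * M) ^ 2 := sq_nonneg _
      linarith
  have hts : ∑' t : ℤ, ‖(chi S (t + l) : ℂ) * f (t + l) + s * ((chi S t : ℂ) * f t)‖ ^ 2 =
      ∑ t ∈ W, ‖(chi S (t + l) : ℂ) * f (t + l) + s * ((chi S t : ℂ) * f t)‖ ^ 2 := by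
    refine tsum_eq_sum fun t ht => ?_
    rw [hmemW, not_or] at ht
    rw [hout _ ht.1, hout _ ht.2]
    simp
  have hsum : ∑ t ∈ W, (if t ∈ S.I ∧ t + l ∈ S.I then 2 * ‖f (t + l) + s * f t‖ ^ 2 else 0) =
      2 * ∑ t ∈ S.I.filter (fun t => t - l ∈ S.I),
        ‖f (t - l) + (starRingEnd ℂ) s * f t‖ ^ 2 := by
    rw [← Finset.sum_filter, Finset.mul_sum]
    refine Finset.sum_nbij' (fun t => t + l) (fun t => t - l) ?_ ?_ ?_ ?_ ?_
    · intro t ht
      obtain ⟨-, h1, h2⟩ := Finset.mem_filter.1 ht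
      refine Finset.mem_filter.2 ⟨h2, ?_⟩
      rwa [add_sub_cancel_right]
    · intro t ht
      obtain ⟨h1, h2⟩ := Finset.mem_filter.1 ht
      refine Finset.mem_filter.2 ⟨(hmemW _).2 (Or.inl h2), h2, ?_⟩
      rwa [sub_add_cancel]
    · intro t _
      rw [add_sub_cancel_right]
    · intro t _
      rw [sub_add_cancel]
    · intro t _
      rw [add_sub_cancel_right]
      congr 2
      have h3 : f t + (starRingEnd ℂ) s * f (t + l) =
          (starRingEnd ℂ) s * (f (t + l) + s * f t) := by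
        rw [mul_add, ← mul_assoc, hss, one_mul, add_comm]
      rw [h3, norm_mul, RCLike.norm_conj, hs1, one_mul]
  rw [hts]
  calc ∑ t ∈ W, ‖(chi S (t + l) : ℂ) * f (t + l) + s * ((chi S t : ℂ) * f t)‖ ^ 2
      ≤ ∑ t ∈ W, ((if t ∈ S.I ∧ t + l ∈ S.I then 2 * ‖f (t + l) + s * f t‖ ^ 2 else 0) +
        2 * (Lip * M) ^ 2) := Finset.sum_le_sum hpt
    _ = 2 * ∑ t ∈ S.I.filter (fun t => t - l ∈ S.I),
          ‖f (t - l) + (starRingEnd ℂ) s * f t‖ ^ 2 + W.card * (2 * (Lip * M) ^ 2) := by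
        rw [Finset.sum_add_distrib, hsum, Finset.sum_const, nsmul_eq_mul]
    _ ≤ 2 * ∑ t ∈ S.I.filter (fun t => t - l ∈ S.I),
          ‖f (t - l) + (starRingEnd ℂ) s * f t‖ ^ 2 + (2 * S.N) * (2 * (Lip * M) ^ 2) := by
        have h8 := Pool.Agent.H81.N4D.card_two S.I l
        rw [hcard] at h8
        have h9 : (W.card : ℝ) * (2 * (Lip * M) ^ 2) ≤ 2 * S.N * (2 * (Lip * M) ^ 2) :=
          mul_le_mul_of_nonneg_right h8 (by positivity)
        linarith
    _ = _ := by ring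

/-- sums of squares over a set from a bound off few points -/
lemma sum_sq_le (S : Par) (E : ℤ → Prop) (u : ℤ → ℂ) (c₂ M : ℝ) (hc : 0 ≤ c₂)
    (s : Finset ℤ) (hs : ∀ t ∈ s, t ∈ S.I) (hu : ∀ t, ‖u t‖ ≤ 2 * M)
    (hE : ∀ t ∈ s, c₂ < ‖u t‖ → E t) (hcard : (S.I.card : ℝ) = S.N) :
    ∑ t ∈ s, ‖u t‖ ^ 2 ≤ c₂ ^ 2 * S.N + 4 * M ^ 2 * S.cnt E := by
  classical
  have h1 : ∀ t ∈ s, ‖u t‖ ^ 2 ≤ c₂ ^ 2 + (if E t then 4 * M ^ 2 else 0) := by
    intro t ht
    have h0 := norm_nonneg (u t)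
    by_cases h : c₂ < ‖u t‖
    · rw [if_pos (hE t ht h)]
      have := pow_le_pow_left₀ h0 (hu t) 2
      nlinarith [sq_nonneg c₂]
    · rw [not_lt] at h
      have : ‖u t‖ ^ 2 ≤ c₂ ^ 2 := pow_le_pow_left₀ h0 h 2
      split_ifs
      · nlinarith [sq_nonneg M]
      · linarith
  calc ∑ t ∈ s, ‖u t‖ ^ 2 ≤ ∑ t ∈ s, (c₂ ^ 2 + (if E t then 4 * M ^ 2 else 0)) := sum_le_sum h1
    _ = s.card * c₂ ^ 2 + 4 * M ^ 2 * ((s.filter E).card : ℝ) := by
        rw [sum_add_distrib, sum_const, nsmul_eq_mul, ← sum_filter, sum_const, nsmul_eq_mul]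
        ring
    _ ≤ c₂ ^ 2 * S.N + 4 * M ^ 2 * S.cnt E := by
        have h2 : (s.card : ℝ) ≤ S.N := by
          rw [← hcard]
          exact_mod_cast card_le_card (fun t ht => hs t ht)
        have h3 : ((s.filter E).card : ℝ) ≤ S.cnt E := by
          unfold Par.cnt
          exact_mod_cast card_le_card (fun t ht => by
            rw [mem_filter] at ht
            rw [Par.mem_fl]
            exact ⟨hs t ht.1, ht.2⟩)
        have h4 := mul_le_mul_of_nonneg_right h2 (sq_nonneg c₂)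
        have h5 := mul_le_mul_of_nonneg_left h3 (by positivity : (0 : ℝ) ≤ 4 * M ^ 2)
        linarith

theorem pf_FINX (hSPX : T_SPX) (hPWX : T_PWX) (hCHI : T_CHI) (hWTS : T_WTS)
    (hSIZ : T_SIZ) : T_FINX := by
  obtain ⟨B, hB2, hPW⟩ := hPWX
  refine ⟨B, hB2, ?_⟩
  intro m₀ M η hM1 hη
  obtain ⟨c', X₂, hc', hPW⟩ := hPW m₀
  obtain ⟨X₃, hW⟩ := hWTS.2.1 B (by omega)
  obtain ⟨X₄, hSZ⟩ := hSIZ
  obtain ⟨X₅, hLL⟩ := LL_large (max 1 (16 * M ^ 2 / (c' * η)))
  obtain ⟨X₆, hLm⟩ := LL_large (m₀ + 1 : ℝ)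
  have hM0 : 0 < M := by linarith
  have hcη : 0 < c' * η := by positivity
  have hBr : (0 : ℝ) ≤ B := Nat.cast_nonneg B
  set c₂ : ℝ := min 1 (c' * η / (4 * (2 * B + 2 + 16 * M ^ 2))) with hc₂
  have hc20 : 0 < c₂ := lt_min one_pos (by positivity)
  have hc21 : c₂ ≤ 1 := min_le_left _ _
  have hc2b : (2 * B + 2 + 16 * M ^ 2) * c₂ ≤ c' * η / 4 := by
    have h1 : c₂ ≤ c' * η / (4 * (2 * B + 2 + 16 * M ^ 2)) := min_le_right _ _
    rw [le_div_iff₀ (by positivity)] at h1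
    linarith
  obtain ⟨K₁, hK₁⟩ := exists_nat_ge (16 * M ^ 2 * B * (B + 1) ^ 2 / (c' * η))
  refine ⟨c₂, max B (max 1 K₁), hc20, le_max_left _ _, ?_⟩
  intro K hK
  refine ⟨max (max X₂ X₃) (max (max X₄ X₆) X₅), ?_⟩
  intro S hS hSK hX d hd1 hdm χ f hf henf hsh hed
  have hX2 : X₂ ≤ S.X := (le_max_left _ _).trans ((le_max_left _ _).trans hX)
  have hX3 : X₃ ≤ S.X := (le_max_right _ _).trans ((le_max_left _ _).trans hX)
  have hX4 : X₄ ≤ S.X := (le_max_left _ _).trans ((le_max_left _ _).trans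
    ((le_max_right _ _).trans hX))
  have hX6 : X₆ ≤ S.X := (le_max_right _ _).trans ((le_max_left _ _).trans
    ((le_max_right _ _).trans hX))
  have hX5 : X₅ ≤ S.X := (le_max_right _ _).trans ((le_max_right _ _).trans hX)
  obtain ⟨hL, hP100, -, hr1, hhr, -, hV2, hV1, -, hlp, -, hN, hcard⟩ := hSZ S hS hX4
  have hLbig : 16 * M ^ 2 / (c' * η) ≤ S.L := (le_max_right _ _).trans (hLL S.X hX5)
  have hh := hS.hh
  have hr := hS.hr0
  have hL0 : 0 < S.L := by linarith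
  have hKr : (1 : ℝ) ≤ S.K := by exact_mod_cast hS.hK
  have hKL : 0 < (S.K : ℝ) * S.L := by positivity
  have hm0 : (m₀ : ℝ) < S.P := by
    have h1 := hLm S.X hX6
    have h2 : S.P = Real.exp (LL S.X) := rfl
    have h3 := Real.add_one_le_exp (LL S.X)
    rw [h2]
    linarith
  obtain ⟨hχ1, hχ2, hχ3, -⟩ := hCHI S hS hL0
  set g : ℤ → ℂ := fun t => Pool.Agent.H6.N4D.chi S t * f t with hg
  have hgfin : (Function.support g).Finite := by
    refine (S.I.finite_toSet).subset ?_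
    intro t ht
    by_contra h
    apply ht
    rw [hg]
    simp only
    rw [hχ2 t h]
    simp
  -- the lower bound of the energy
  have hen : η * S.N ≤ ∑' t : ℤ, ‖g t‖ ^ 2 := by
    have hsum : Summable fun t : ℤ => ‖g t‖ ^ 2 := by
      apply summable_of_finite_support
      refine hgfin.subset ?_
      intro t ht h
      apply ht
      simp only
      rw [h]
      simp
    calc η * S.N ≤ ∑ t ∈ In S 1, ‖f t‖ ^ 2 := henf
      _ = ∑ t ∈ In S 1, ‖g t‖ ^ 2 := by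
          apply sum_congr rfl
          intro t ht
          rw [hg]
          simp only
          rw [hχ3 t ht]
          simp
      _ ≤ _ := hsum.sum_le_tsum _ (fun t _ => by positivity)
  -- the prime numbers
  have hPpos : 1 ≤ S.P := by linarith
  have hunit : ∀ p ∈ Pr S.P (S.P ^ B), ‖χ (p : ZMod d)‖ = 1 := by
    intro p hp
    rw [mem_Pr (by positivity)] at hp
    have h2 : (d : ℝ) ≤ m₀ := by exact_mod_cast hdm
    have h3 : (d : ℝ) < p := by linarith [hp.1]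
    have h4 : d < p := by exact_mod_cast h3
    have hco : Nat.Coprime p d := by
      rw [Nat.Prime.coprime_iff_not_dvd hp.2.2]
      intro h
      have := Nat.le_of_dvd (by omega) h
      omega
    obtain ⟨v, hv⟩ := (ZMod.isUnit_iff_coprime p d).2 hco
    rw [← hv]
    haveI : NeZero d := ⟨by omega⟩
    exact χ.unit_norm_eq_one v
  -- the inequality of the quadratic forms
  have hmain := hSPX g hgfin ℕ ℕ (Pr S.P (S.P ^ B)) (Icc 1 S.V) c' (fun p => 1 / (p : ℝ))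
    (fun _ => 1 / (S.V : ℝ)) (fun p => (starRingEnd ℂ) (χ (p : ZMod d))) S.l (fun w => (w : ℤ))
    (fun p hp => by rw [RCLike.norm_conj]; exact hunit p hp) (by
      intro ξ
      have h1 := hPW S hS hX2 d hd1 hdm χ ξ
      have h2 : ∑ j ∈ Icc 1 S.V, 1 / (S.V : ℝ) *
          (1 - Real.cos (2 * Real.pi * ξ * ((j : ℤ) : ℝ))) =
          1 / (S.V : ℝ) * ∑ w ∈ Icc 1 S.V, (1 - Real.cos (2 * Real.pi * ξ * w)) := by
        rw [mul_sum]
        apply sum_congr rfl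
        intro w _
        push_cast
        rfl
      rw [h2]
      simp only [Complex.conj_conj]
      exact h1)
  -- the primes
  have hW' := hW S.X hX3
  set W : ℝ := ∑ p ∈ Pr S.P (S.P ^ B), 1 / (p : ℝ) with hWdef
  have hWB : W ≤ B := hW'
  have hfs : ∀ (z : ℂ) (t s : ℤ), ‖z‖ = 1 → ‖f t + z * f s‖ ≤ 2 * M := fun z t s hz =>
    (norm_add_le _ _).trans (by
      rw [norm_mul, hz, one_mul]
      linarith [hf t, hf s])
  have hfd : ∀ t s : ℤ, ‖f t - f s‖ ≤ 2 * M := fun t s =>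
    (norm_sub_le _ _).trans (by linarith [hf t, hf s])
  have hp1 : ∀ p ∈ Pr S.P (S.P ^ B), Dx g ((starRingEnd ℂ) (χ (p : ZMod d))) (S.l p) ≤
      2 * (c₂ ^ 2 * S.N + 4 * M ^ 2 *
      S.cnt (fun t => t - S.l p ∈ S.I ∧ c₂ < ‖f (t - S.l p) + χ (p : ZMod d) * f t‖)) +
      4 * M ^ 2 * (((B : ℝ) + 1) / K) ^ 2 * S.N := by
    intro p hp
    have hun := hunit p hp
    rw [mem_Pr (by positivity)] at hp
    obtain ⟨hp0, hpB, hpp⟩ := hp
    have hpos : (0 : ℝ) < p := by exact_mod_cast hpp.pos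
    have h1 := cut_x hCHI S hS hL0 M f hf (S.l p) ((starRingEnd ℂ) (χ (p : ZMod d)))
      (by rw [RCLike.norm_conj]; exact hun)
    rw [Complex.conj_conj] at h1
    have h2 : ∑ t ∈ S.I.filter (fun t => t - S.l p ∈ S.I),
        ‖f (t - S.l p) + χ (p : ZMod d) * f t‖ ^ 2 ≤ c₂ ^ 2 * S.N + 4 * M ^ 2 *
        S.cnt (fun t => t - S.l p ∈ S.I ∧ c₂ < ‖f (t - S.l p) + χ (p : ZMod d) * f t‖) := by
      apply sum_sq_le S _ (fun t => f (t - S.l p) + χ (p : ZMod d) * f t) c₂ M hc20.le _ _ _ _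
        hcard
      · intro t ht
        rw [mem_filter] at ht
        exact ht.1
      · intro t
        exact hfs _ _ _ hun
      · intro t ht hct
        rw [mem_filter] at ht
        exact ⟨ht.2, hct⟩
    have h3 : |((S.l p : ℤ) : ℝ)| * S.h / (S.K * S.L) ≤ ((B : ℝ) + 1) / K := by
      have h4 := hlp p hpp.pos
      have hh1 : S.h ≤ 1 := by
        have : S.rho ^ 4 ≤ 1 := pow_le_one₀ hr.le (by linarith)
        linarith
      have h5 : Real.log p ≤ B * S.L := by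
        have h6 := Real.log_le_log hpos hpB
        rw [Real.log_pow, Par.log_P] at h6
        exact h6
      have h7 : 0 ≤ Real.log p := Real.log_natCast_nonneg p
      have h8 : |((S.l p : ℤ) : ℝ)| * S.h ≤ (B + 1) * S.L := by
        rw [abs_le] at h4
        have h9 : |((S.l p : ℤ) : ℝ)| * S.h = |S.h * (S.l p : ℝ)| := by
          rw [abs_mul, abs_of_pos hh]; ring
        rw [h9, abs_le]
        constructor
        · nlinarith [h4.1]
        · nlinarith [h4.2]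
      rw [← hSK, div_le_div_iff₀ hKL (by linarith)]
      nlinarith
    have h10 : (|((S.l p : ℤ) : ℝ)| * S.h / (S.K * S.L)) ^ 2 ≤ (((B : ℝ) + 1) / K) ^ 2 :=
      pow_le_pow_left₀ (by positivity) h3 2
    have h11 : 4 * M ^ 2 * (|((S.l p : ℤ) : ℝ)| * S.h / (S.K * S.L)) ^ 2 * S.N ≤
        4 * M ^ 2 * (((B : ℝ) + 1) / K) ^ 2 * S.N := by
      apply mul_le_mul_of_nonneg_right _ hN.le
      exact mul_le_mul_of_nonneg_left h10 (by positivity)
    have h12 : Dx g ((starRingEnd ℂ) (χ (p : ZMod d))) (S.l p) =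
        ∑' t : ℤ, ‖(Pool.Agent.H6.N4D.chi S (t + S.l p) : ℂ) * f (t + S.l p) +
          (starRingEnd ℂ) (χ (p : ZMod d)) * ((Pool.Agent.H6.N4D.chi S t : ℂ) * f t)‖ ^ 2 := rfl
    rw [h12]
    linarith
  have hP : ∑ p ∈ Pr S.P (S.P ^ B), 1 / (p : ℝ) *
        Dx g ((starRingEnd ℂ) (χ (p : ZMod d))) (S.l p) ≤
      (2 * c₂ ^ 2 * W + 8 * M ^ 2 * c₂ + 4 * M ^ 2 * (((B : ℝ) + 1) / K) ^ 2 * W) * S.N := by
    calc _ ≤ ∑ p ∈ Pr S.P (S.P ^ B), 1 / (p : ℝ) * (2 * (c₂ ^ 2 * S.N + 4 * M ^ 2 *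
        S.cnt (fun t => t - S.l p ∈ S.I ∧ c₂ < ‖f (t - S.l p) + χ (p : ZMod d) * f t‖)) +
        4 * M ^ 2 * (((B : ℝ) + 1) / K) ^ 2 * S.N) :=
          sum_le_sum fun p hp => mul_le_mul_of_nonneg_left (hp1 p hp) (by positivity)
      _ = (2 * c₂ ^ 2 * S.N + 4 * M ^ 2 * (((B : ℝ) + 1) / K) ^ 2 * S.N) * W + 8 * M ^ 2 *
          ∑ p ∈ Pr S.P (S.P ^ B), 1 / (p : ℝ) *
            S.cnt (fun t => t - S.l p ∈ S.I ∧ c₂ < ‖f (t - S.l p) + χ (p : ZMod d) * f t‖) := by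
          rw [hWdef, mul_sum, mul_sum, ← sum_add_distrib]
          apply sum_congr rfl
          intro p _
          ring
      _ ≤ (2 * c₂ ^ 2 * S.N + 4 * M ^ 2 * (((B : ℝ) + 1) / K) ^ 2 * S.N) * W +
          8 * M ^ 2 * (c₂ * S.N) := by
          have := mul_le_mul_of_nonneg_left hed (by positivity : (0 : ℝ) ≤ 8 * M ^ 2)
          linarith
      _ = _ := by ring
  -- the shifts
  have hs1 : ∀ w ∈ Icc 1 S.V, Dg g (w : ℤ) ≤
      (2 * (c₂ ^ 2 + 4 * M ^ 2 * c₂) + c' * η / 4) * S.N := by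
    intro w hw
    rw [mem_Icc] at hw
    have h1 := cut_x hCHI S hS hL0 M f hf (w : ℤ) (-1) (by simp)
    have hconj : (starRingEnd ℂ) (-1 : ℂ) = -1 := by simp
    rw [hconj] at h1
    have e0 : Dg g (w : ℤ) = ∑' t : ℤ, ‖(Pool.Agent.H6.N4D.chi S (t + w) : ℂ) * f (t + w) +
        (-1) * ((Pool.Agent.H6.N4D.chi S t : ℂ) * f t)‖ ^ 2 := by
      unfold Dg
      refine tsum_congr fun t => ?_
      rw [hg]
      simp only
      congr 2
      ring
    rw [← e0] at h1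
    have h2 : ∑ t ∈ S.I.filter (fun t => t - (w : ℤ) ∈ S.I), ‖f (t - w) + (-1) * f t‖ ^ 2 ≤
        c₂ ^ 2 * S.N + 4 * M ^ 2 * S.cnt (fun t => t + (-(w : ℤ)) ∈ S.I ∧
        (t + (-(w : ℤ)) + (w : ℤ) ∈ S.I ∧
          c₂ < ‖f (t + (-(w : ℤ)) + (w : ℤ)) - f (t + (-(w : ℤ)))‖)) := by
      have e1 : ∀ t : ℤ, f (t - w) + (-1) * f t = f (t - w) - f t := fun t => by ring
      simp only [e1]
      apply sum_sq_le S _ (fun t => f (t - w) - f t) c₂ M hc20.le _ _ _ _ hcard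
      · intro t ht
        rw [mem_filter] at ht
        exact ht.1
      · intro t
        exact hfd _ _
      · intro t ht hct
        rw [mem_filter] at ht
        have e1 : t + (-(w : ℤ)) = t - w := by ring
        have e2 : t - (w : ℤ) + w = t := by ring
        rw [e1, e2]
        refine ⟨ht.2, ht.1, ?_⟩
        rw [norm_sub_rev]
        exact hct
    have h3 := Par.cnt_shift (S := S)
      (fun t => t + (w : ℤ) ∈ S.I ∧ c₂ < ‖f (t + (w : ℤ)) - f t‖) (-(w : ℤ))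
    have h4 := hsh w hw.1 hw.2
    have h5 : 4 * M ^ 2 * (|(((w : ℤ)) : ℝ)| * S.h / (S.K * S.L)) ^ 2 ≤ c' * η / 4 := by
      have h6 : |(((w : ℤ)) : ℝ)| * S.h ≤ 1 := by
        have h7 : |(((w : ℤ)) : ℝ)| = (w : ℝ) := by
          push_cast
          exact abs_of_nonneg (Nat.cast_nonneg w)
        rw [h7]
        have h8 : (w : ℝ) ≤ S.V := by exact_mod_cast hw.2
        have h9 : S.rho ^ 2 ≤ 1 := pow_le_one₀ hr.le (by linarith)
        nlinarith
      have h7 : |(((w : ℤ)) : ℝ)| * S.h / (S.K * S.L) ≤ 1 / S.L := by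
        rw [div_le_div_iff₀ hKL hL0]
        nlinarith
      have h8 : (|(((w : ℤ)) : ℝ)| * S.h / (S.K * S.L)) ^ 2 ≤ (1 / S.L) ^ 2 :=
        pow_le_pow_left₀ (by positivity) h7 2
      have h9 : (1 / S.L) ^ 2 ≤ 1 / S.L := by
        have : 1 / S.L ≤ 1 := by rw [div_le_one hL0]; exact hL
        have h0 : 0 < 1 / S.L := by positivity
        nlinarith
      have h10 : 4 * M ^ 2 * (1 / S.L) ≤ c' * η / 4 := by
        rw [div_le_iff₀ hcη] at hLbig
        rw [mul_one_div, div_le_iff₀ hL0]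
        linarith
      exact (mul_le_mul_of_nonneg_left (h8.trans h9) (by positivity)).trans h10
    have h6 : 4 * M ^ 2 * (|(((w : ℤ)) : ℝ)| * S.h / (S.K * S.L)) ^ 2 * S.N ≤
        c' * η / 4 * S.N := mul_le_mul_of_nonneg_right h5 hN.le
    have h7 : 4 * M ^ 2 * S.cnt (fun t => t + (-(w : ℤ)) ∈ S.I ∧
        (t + (-(w : ℤ)) + (w : ℤ) ∈ S.I ∧
          c₂ < ‖f (t + (-(w : ℤ)) + (w : ℤ)) - f (t + (-(w : ℤ)))‖)) ≤
        4 * M ^ 2 * (c₂ * S.N) := mul_le_mul_of_nonneg_left (h3.trans h4) (by positivity)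
    calc Dg g (w : ℤ) ≤ _ := h1
      _ ≤ 2 * (c₂ ^ 2 * S.N + 4 * M ^ 2 * (c₂ * S.N)) + c' * η / 4 * S.N := by
          linarith
      _ = _ := by ring
  have hV0 : (0 : ℝ) < S.V := by exact_mod_cast hV1
  have hSh : ∑ w ∈ Icc 1 S.V, 1 / (S.V : ℝ) * Dg g (w : ℤ) ≤
      (2 * (c₂ ^ 2 + 4 * M ^ 2 * c₂) + c' * η / 4) * S.N := by
    calc _ ≤ ∑ w ∈ Icc 1 S.V, 1 / (S.V : ℝ) *
            ((2 * (c₂ ^ 2 + 4 * M ^ 2 * c₂) + c' * η / 4) * S.N) :=
          sum_le_sum fun w hw => mul_le_mul_of_nonneg_left (hs1 w hw) (by positivity)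
      _ = _ := by
          rw [sum_const, nsmul_eq_mul, Nat.card_Icc]
          have : ((S.V + 1 - 1 : ℕ) : ℝ) = S.V := by simp
          rw [this]
          field_simp
  -- the constants
  have hKb : 4 * M ^ 2 * (((B : ℝ) + 1) / K) ^ 2 * W ≤ c' * η / 4 := by
    have hK1 : (1 : ℝ) ≤ K := by
      have : 1 ≤ K := (le_max_left _ _).trans ((le_max_right _ _).trans hK)
      exact_mod_cast this
    have hK2 : 16 * M ^ 2 * B * (B + 1) ^ 2 / (c' * η) ≤ (K : ℝ) := by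
      have : K₁ ≤ K := (le_max_right _ _).trans ((le_max_right _ _).trans hK)
      exact hK₁.trans (by exact_mod_cast this)
    rw [div_le_iff₀ hcη] at hK2
    have hK0 : (0 : ℝ) < K := by linarith
    have h1 : 4 * M ^ 2 * (((B : ℝ) + 1) / K) ^ 2 * W ≤ 4 * M ^ 2 * (((B : ℝ) + 1) / K) ^ 2 * B :=
      mul_le_mul_of_nonneg_left hWB (by positivity)
    refine h1.trans ?_
    have e : 4 * M ^ 2 * (((B : ℝ) + 1) / K) ^ 2 * B =
        (4 * M ^ 2 * B * (B + 1) ^ 2) / (K * K) := by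
      field_simp
    rw [e, div_le_iff₀ (by positivity)]
    have h2 : (K : ℝ) * (c' * η) ≤ K * K * (c' * η) := by
      have h3 := mul_le_mul_of_nonneg_right hK1 (by positivity : (0 : ℝ) ≤ K * (c' * η))
      linarith
    linarith
  have hc2sq : c₂ ^ 2 ≤ c₂ := by nlinarith
  have hWn : 0 ≤ W := sum_nonneg fun p _ => by positivity
  have hcW : c₂ ^ 2 * W ≤ c₂ * B := mul_le_mul hc2sq hWB hWn hc20.le
  have hfinal : 2 * c' * (η * S.N) ≤ (3 / 4 * (c' * η)) * S.N := by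
    calc 2 * c' * (η * S.N) ≤ 2 * c' * ∑' t : ℤ, ‖g t‖ ^ 2 :=
          mul_le_mul_of_nonneg_left hen (by positivity)
      _ ≤ _ := hmain
      _ ≤ (2 * c₂ ^ 2 * W + 8 * M ^ 2 * c₂ + 4 * M ^ 2 * (((B : ℝ) + 1) / K) ^ 2 * W) * S.N +
          (2 * (c₂ ^ 2 + 4 * M ^ 2 * c₂) + c' * η / 4) * S.N := add_le_add hP hSh
      _ = (2 * (c₂ ^ 2 * W) + 8 * M ^ 2 * c₂ + 4 * M ^ 2 * (((B : ℝ) + 1) / K) ^ 2 * W +
          (2 * (c₂ ^ 2 + 4 * M ^ 2 * c₂) + c' * η / 4)) * S.N := by ring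
      _ ≤ (3 / 4 * (c' * η)) * S.N := by
          apply mul_le_mul_of_nonneg_right _ hN.le
          nlinarith
  nlinarith [mul_pos hcη hN]

end Pool.Agent.H83.GS
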