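import Pool.Agent.H83.GS.TX

/-!
# PWX: the pointwise inequality with characters
-/

set_option autoImplicit false

open Finset Pool.Agent.H6.N4D

namespace Pool.Agent.H83.GS

theorem red_ee (ξ : ℝ) : ∃ ξ' : ℝ, |ξ'| ≤ 1 / 2 ∧ (∀ m : ℤ, ee (m * ξ) = ee (m * ξ')) ∧
    ∀ w : ℕ, Real.cos (2 * Real.pi * ξ * w) = Real.cos (2 * Real.pi * ξ' * w) := by
  refine ⟨ξ - round ξ, abs_sub_round ξ, fun m => ?_, fun w => ?_⟩
  · have h1 : (m : ℝ) * ξ = m * (ξ - round ξ) + ((m * round ξ : ℤ) : ℝ) := by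
      push_cast
      ring
    rw [h1, ee_add, ee_int, mul_one]
  · have h1 : 2 * Real.pi * (ξ - round ξ) * w =
        2 * Real.pi * ξ * w - ((round ξ * (w : ℤ) : ℤ) : ℝ) * (2 * Real.pi) := by
      push_cast
      ring
    rw [h1, Real.cos_sub_int_mul_two_pi]

/-- `1 + Re w` for unimodular `w` -/
theorem one_add_re {w : ℂ} (hw : ‖w‖ = 1) : ‖w + 1‖ ^ 2 = 2 * (1 + w.re) := by
  have h : w.re * w.re + w.im * w.im = 1 := by
    have := Complex.sq_norm w
    rw [hw, Complex.normSq_apply] at this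
    linarith
  rw [Complex.sq_norm, Complex.normSq_apply, Complex.add_re, Complex.add_im, Complex.one_re,
    Complex.one_im]
  linear_combination h

theorem one_add_re_nonneg {w : ℂ} (hw : ‖w‖ ≤ 1) : 0 ≤ 1 + w.re := by
  have := Complex.abs_re_le_norm w
  have h2 := abs_le.1 (this.trans hw)
  linarith [h2.1]

theorem pow_near (w : ℂ) (hw : ‖w‖ = 1) (k : ℕ) : ‖w ^ k - (-1) ^ k‖ ≤ k * ‖w + 1‖ := by
  induction k with
  | zero => simp
  | succ k ih =>
    have e : w ^ (k + 1) - (-1) ^ (k + 1) = w * (w ^ k - (-1) ^ k) + (w + 1) * (-1) ^ k := by ring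
    rw [e]
    refine (norm_add_le _ _).trans ?_
    rw [norm_mul, norm_mul, hw, norm_pow, norm_neg, norm_one, one_pow]
    push_cast
    linarith

/-- a value of the character, of modulus one, of finite order -/
theorem chi_unit {d : ℕ} (hd : 1 ≤ d) (χ : DirichletCharacter ℂ d) {p : ℕ} (hp : p.Prime)
    (hpd : d < p) : ‖χ (p : ZMod d)‖ = 1 ∧ χ (p : ZMod d) ^ Nat.totient d = 1 := by
  have hco : Nat.Coprime p d := by
    rw [Nat.Prime.coprime_iff_not_dvd hp]
    intro h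
    have := Nat.le_of_dvd (by omega) h
    omega
  obtain ⟨u, hu⟩ := (ZMod.isUnit_iff_coprime p d).2 hco
  have h2 : χ (p : ZMod d) ^ Nat.totient d = 1 := by
    rw [← hu, ← map_pow, ← Units.val_pow_eq_pow_val, ZMod.pow_totient]
    simp
  refine ⟨?_, h2⟩
  have h3 : ‖χ (p : ZMod d)‖ ^ Nat.totient d = 1 := by
    rw [← norm_pow, h2, norm_one]
  exact (pow_eq_one_iff_of_nonneg (norm_nonneg _) (Nat.totient_pos.2 hd).ne').1 h3

theorem ni_eq (u : ℝ) (p : ℕ) : Pool.Agent.H83.VU.ni u p =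
    Complex.exp (((u * Real.log p : ℝ) : ℂ) * Complex.I) := rfl

theorem norm_ni (u : ℝ) (p : ℕ) : ‖Pool.Agent.H83.VU.ni u p‖ = 1 := by
  rw [ni_eq]
  exact Complex.norm_exp_ofReal_mul_I _

theorem norm_exp_sub (x y : ℝ) : ‖Complex.exp ((x : ℂ) * Complex.I) -
    Complex.exp ((y : ℂ) * Complex.I)‖ ≤ |x - y| := by
  have e : Complex.exp ((x : ℂ) * Complex.I) - Complex.exp ((y : ℂ) * Complex.I) =
      Complex.exp ((y : ℂ) * Complex.I) * (Complex.exp (((x - y : ℝ) : ℂ) * Complex.I) - 1) := by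
    rw [mul_sub, ← Complex.exp_add, mul_one]
    congr 2
    push_cast
    ring
  rw [e, norm_mul, Complex.norm_exp_ofReal_mul_I, one_mul]
  have := Real.norm_exp_I_mul_ofReal_sub_one_le (x := x - y)
  rwa [mul_comm Complex.I, Real.norm_eq_abs] at this

theorem pf_PWX (hWTS : T_WTS) (hAVG : T_AVG) (hSIZ : T_SIZ) (hMPX : T_MPX)
    (hGAP : Pool.Agent.H83.VU.T_GAP) : T_PWX := by
  obtain ⟨b, c, X₁, hc, hG⟩ := hGAP (1 / 4) (by norm_num)
  refine ⟨max b 2, le_max_right _ _, ?_⟩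
  set B : ℕ := max b 2 with hBdef
  have hB : 2 ≤ B := le_max_right _ _
  intro m₀
  obtain ⟨⟨Xa, hXa⟩, hW2, -⟩ := hWTS
  obtain ⟨Xb, hXb⟩ := hW2 B (by omega)
  obtain ⟨Xs, hXs⟩ := hSIZ
  -- uniform Mertens
  have hM : ∃ Xm : ℝ, ∀ X, Xm ≤ X → ∀ d ∈ Icc 1 m₀, ∀ χ : DirichletCharacter ℂ d, χ ≠ 1 →
      ‖∑ p ∈ Pr (PP X) (PP X ^ 2), χ (p : ZMod d) * ((1 / p : ℝ) : ℂ)‖ ≤ 1 / 16 := by
    have h1 : ∀ᶠ X in Filter.atTop, ∀ d ∈ Icc 1 m₀, ∀ χ : DirichletCharacter ℂ d, χ ≠ 1 →
        ‖∑ p ∈ Pr (PP X) (PP X ^ 2), χ (p : ZMod d) * ((1 / p : ℝ) : ℂ)‖ ≤ 1 / 16 := by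
      rw [Filter.eventually_all_finset]
      intro d hd
      rw [mem_Icc] at hd
      haveI : NeZero d := ⟨by omega⟩
      rw [Filter.eventually_all]
      intro χ
      by_cases hχ : χ = 1
      · exact Filter.Eventually.of_forall fun X h => absurd hχ h
      · obtain ⟨X₀, hX₀⟩ := hMPX d χ hd.1 hχ (1 / 16) (by norm_num)
        filter_upwards [Filter.eventually_ge_atTop X₀] with X hX _
        exact hX₀ X hX
    rw [Filter.eventually_atTop] at h1
    exact h1
  obtain ⟨Xm, hXm⟩ := hM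
  obtain ⟨Xl, hXl⟩ := LL_large (m₀ + 1 : ℝ)
  set m₁ : ℝ := max (m₀ : ℝ) 1 with hm₁
  have hm₁0 : 1 ≤ m₁ := le_max_right _ _
  refine ⟨min (1 / 32) (c / (4 * m₁ ^ 2)),
    max (max (max Xa Xb) (max Xm Xl)) (max (max Xs X₁) (max (B * (2 * m₁ ^ 2) / c) (13 * m₁))),
    lt_min (by norm_num) (by positivity), fun S hS hX d hd1 hdm χ ξ => ?_⟩
  have e1 : Xa ≤ S.X := (le_max_left _ _).trans ((le_max_left _ _).trans ((le_max_left _ _).trans hX))
  have e2 : Xb ≤ S.X := (le_max_right _ _).trans ((le_max_left _ _).trans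
    ((le_max_left _ _).trans hX))
  have e7 : Xm ≤ S.X := (le_max_left _ _).trans ((le_max_right _ _).trans
    ((le_max_left _ _).trans hX))
  have e8 : Xl ≤ S.X := (le_max_right _ _).trans ((le_max_right _ _).trans
    ((le_max_left _ _).trans hX))
  have e3 : Xs ≤ S.X := (le_max_left _ _).trans ((le_max_left _ _).trans
    ((le_max_right _ _).trans hX))
  have e4 : X₁ ≤ S.X := (le_max_right _ _).trans ((le_max_left _ _).trans
    ((le_max_right _ _).trans hX))
  have e5 : B * (2 * m₁ ^ 2) / c ≤ S.X := (le_max_left _ _).trans ((le_max_right _ _).trans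
    ((le_max_right _ _).trans hX))
  have e6 : 13 * m₁ ≤ S.X := (le_max_right _ _).trans ((le_max_right _ _).trans
    ((le_max_right _ _).trans hX))
  obtain ⟨hL1, hP100, hrX, hr100, hh4, hV1, hV2, hV, -, hl, -, hN, -⟩ := hXs S hS e3
  have hh := hS.hh
  have hX0 : 0 < S.X := by linarith
  have hm0 : (m₀ : ℝ) < S.P := by
    have h1 := hXl S.X e8
    have h2 : S.P = Real.exp (LL S.X) := rfl
    have h3 := Real.add_one_le_exp (LL S.X)
    rw [h2]
    linarith
  obtain ⟨k, hk⟩ : ∃ k, k = Nat.totient d := ⟨_, rfl⟩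
  have hk1 : 1 ≤ k := by
    rw [hk]
    exact Nat.totient_pos.2 hd1
  have hkm : (k : ℝ) ≤ m₁ := by
    refine le_trans ?_ (le_max_left _ _)
    have : k ≤ m₀ := by
      rw [hk]
      exact (Nat.totient_le d).trans hdm
    exact_mod_cast this
  have hk1r : (1 : ℝ) ≤ k := by exact_mod_cast hk1
  obtain ⟨ξ', hξ, hee, hcosN⟩ := red_ee ξ
  have hs1 : ∑ p ∈ Pr S.P (S.P ^ B), 1 / (p : ℝ) * (1 + (χ (p : ZMod d) * ee (S.l p * ξ)).re) =
      ∑ p ∈ Pr S.P (S.P ^ B), 1 / (p : ℝ) * (1 + (χ (p : ZMod d) * ee (S.l p * ξ')).re) :=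
    sum_congr rfl fun p _ => by rw [hee]
  have hs2 : ∑ w ∈ Icc 1 S.V, (1 - Real.cos (2 * Real.pi * ξ * w)) =
      ∑ w ∈ Icc 1 S.V, (1 - Real.cos (2 * Real.pi * ξ' * w)) :=
    sum_congr rfl fun w _ => by rw [hcosN]
  rw [hs1, hs2]
  have hχ1 : ∀ p : ℕ, ‖χ (p : ZMod d)‖ ≤ 1 := fun p => DirichletCharacter.norm_le_one χ _
  have hterm : ∀ (p : ℕ) (y : ℝ), 0 ≤ 1 / (p : ℝ) * (1 + (χ (p : ZMod d) * ee y).re) := fun p y =>
    mul_nonneg (by positivity) (one_add_re_nonneg (by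
      rw [norm_mul, norm_ee, mul_one]
      exact hχ1 p))
  have hT1 : 0 ≤ ∑ p ∈ Pr S.P (S.P ^ B),
      1 / (p : ℝ) * (1 + (χ (p : ZMod d) * ee (S.l p * ξ')).re) :=
    sum_nonneg fun p _ => hterm p _
  have hT2 : 0 ≤ 1 / (S.V : ℝ) * ∑ w ∈ Icc 1 S.V, (1 - Real.cos (2 * Real.pi * ξ' * w)) :=
    mul_nonneg (by positivity) (sum_nonneg fun w _ => by
      linarith [Real.cos_le_one (2 * Real.pi * ξ' * w)])
  obtain ⟨u, hu⟩ : ∃ u, u = 2 * Real.pi * ξ' / S.h := ⟨_, rfl⟩
  have huh : ∀ y : ℝ, ee (y * ξ') = Complex.exp (((u * (S.h * y) : ℝ) : ℂ) * Complex.I) := by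
    intro y
    unfold ee
    congr 3
    rw [hu]
    field_simp
  have hP1 : (1 : ℝ) ≤ S.P := by linarith
  have hPB : 0 ≤ S.P ^ B := by positivity
  -- the prime numbers in the sum
  have hmem : ∀ p ∈ Pr S.P (S.P ^ B), p.Prime ∧ d < p := fun p hp => by
    have h1 := (mem_Pr hPB).1 hp
    refine ⟨h1.2.2, ?_⟩
    have h2 : (d : ℝ) ≤ m₀ := by exact_mod_cast hdm
    have h3 : (d : ℝ) < p := by linarith [h1.1]
    exact_mod_cast h3
  have hdist : ∀ p ∈ Pr S.P (S.P ^ B), ‖ee (S.l p * ξ') - Pool.Agent.H83.VU.ni u p‖ ≤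
      |u| * (S.h / 2) := by
    intro p hp
    rw [huh, ni_eq]
    refine (norm_exp_sub _ _).trans ?_
    rw [← mul_sub, abs_mul]
    exact mul_le_mul_of_nonneg_left (hl p (hmem p hp).1.one_lt.le) (abs_nonneg _)
  have hLpos : 0 < S.L := by linarith
  have hh2 : S.h ≤ 1 / 100 := by
    have h10 : S.rho ^ 4 ≤ (1 / 100) ^ 4 := pow_le_pow_left₀ hS.hr0.le hr100 4
    norm_num at h10
    linarith
  rcases le_or_gt |u| (1 / 4 / (k * S.L)) with hA | hA
  · -- small frequencies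
    have hsub : Pr S.P (S.P ^ 2) ⊆ Pr S.P (S.P ^ B) := by
      unfold Pr
      refine filter_subset_filter _ (Ioc_subset_Ioc_right ?_)
      exact Nat.floor_le_floor (pow_le_pow_right₀ hP1 hB)
    have hw : 1 / 4 ≤ ∑ p ∈ Pr S.P (S.P ^ 2), 1 / (p : ℝ) := hXa S.X e1
    have hA' : |u| ≤ 1 / 4 / S.L := hA.trans (by
      apply div_le_div_of_nonneg_left (by norm_num) hLpos
      nlinarith)
    have h1 : ∑ p ∈ Pr S.P (S.P ^ 2), 1 / (p : ℝ) * (1 + (χ (p : ZMod d)).re - 6 / 10) ≤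
        ∑ p ∈ Pr S.P (S.P ^ B), 1 / (p : ℝ) * (1 + (χ (p : ZMod d) * ee (S.l p * ξ')).re) := by
      refine le_trans (sum_le_sum fun p hp => ?_) (sum_le_sum_of_subset_of_nonneg hsub
        fun p _ _ => hterm p _)
      refine mul_le_mul_of_nonneg_left ?_ (by positivity)
      have h2 := hdist p (hsub hp)
      have h3 := (mem_Pr (by positivity)).1 hp
      have hp0 : (0 : ℝ) < p := by linarith [h3.1]
      have h4 : Real.log p ≤ 2 * S.L := by
        have h5 := Real.log_le_log hp0 h3.2.1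
        rw [Real.log_pow, Par.log_P] at h5
        exact_mod_cast h5
      have h5 : 0 ≤ Real.log p := Real.log_nonneg (by linarith [h3.1])
      have h6 : ‖Pool.Agent.H83.VU.ni u p - 1‖ ≤ 1 / 2 := by
        have h7 := norm_exp_sub (u * Real.log p) 0
        rw [Complex.ofReal_zero, zero_mul, Complex.exp_zero, sub_zero] at h7
        rw [ni_eq]
        refine h7.trans ?_
        rw [abs_mul, abs_of_nonneg h5]
        calc |u| * Real.log p ≤ 1 / 4 / S.L * (2 * S.L) :=
              mul_le_mul hA' h4 h5 (by positivity)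
          _ = 1 / 2 := by
              field_simp
              norm_num
      have h7 : |u| * (S.h / 2) ≤ 1 / 10 := by
        have h8 : |u| ≤ 1 := hA'.trans (by
          rw [div_le_one hLpos]
          linarith)
        nlinarith [abs_nonneg u]
      have h8 : ‖χ (p : ZMod d) - χ (p : ZMod d) * ee (S.l p * ξ')‖ ≤ 6 / 10 := by
        have e : χ (p : ZMod d) - χ (p : ZMod d) * ee (S.l p * ξ') =
            -(χ (p : ZMod d) * ((ee (S.l p * ξ') - Pool.Agent.H83.VU.ni u p) +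
              (Pool.Agent.H83.VU.ni u p - 1))) := by ring
        rw [e, norm_neg, norm_mul]
        have h9 := norm_add_le (ee (S.l p * ξ') - Pool.Agent.H83.VU.ni u p)
          (Pool.Agent.H83.VU.ni u p - 1)
        have h10 := norm_nonneg ((ee (S.l p * ξ') - Pool.Agent.H83.VU.ni u p) +
          (Pool.Agent.H83.VU.ni u p - 1))
        have h11 := mul_le_of_le_one_left h10 (hχ1 p)
        linarith
      have h9 := (Complex.re_le_norm (χ (p : ZMod d) - χ (p : ZMod d) * ee (S.l p * ξ'))).trans h8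
      rw [Complex.sub_re] at h9
      linarith
    have hre : ∑ p ∈ Pr S.P (S.P ^ 2), 1 / (p : ℝ) * (1 + (χ (p : ZMod d)).re - 6 / 10) =
        4 / 10 * ∑ p ∈ Pr S.P (S.P ^ 2), 1 / (p : ℝ) +
          (∑ p ∈ Pr S.P (S.P ^ 2), χ (p : ZMod d) * ((1 / p : ℝ) : ℂ)).re := by
      rw [Complex.re_sum, mul_sum, ← sum_add_distrib]
      refine sum_congr rfl fun p _ => ?_
      rw [Complex.re_mul_ofReal]
      ring
    have hge : -(1 / 16) ≤ (∑ p ∈ Pr S.P (S.P ^ 2), χ (p : ZMod d) * ((1 / p : ℝ) : ℂ)).re := by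
      by_cases hχ : χ = 1
      · have h0 : 0 ≤ (∑ p ∈ Pr S.P (S.P ^ 2), χ (p : ZMod d) * ((1 / p : ℝ) : ℂ)).re := by
          rw [Complex.re_sum]
          refine sum_nonneg fun p hp => ?_
          rw [Complex.re_mul_ofReal, hχ]
          have hp' := hmem p (hsub hp)
          have hco : Nat.Coprime p d := by
            rw [Nat.Prime.coprime_iff_not_dvd hp'.1]
            intro h
            have := Nat.le_of_dvd (by omega) h
            omega
          rw [MulChar.one_apply ((ZMod.isUnit_iff_coprime p d).2 hco), Complex.one_re]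
          positivity
        linarith
      · have h2 := hXm S.X e7 d (mem_Icc.2 ⟨hd1, hdm⟩) χ hχ
        have h3 := (Complex.abs_re_le_norm _).trans h2
        exact (abs_le.1 h3).1
    rw [hre] at h1
    refine (min_le_left _ _).trans ?_
    linarith
  · rcases le_or_gt |u| (S.X ^ 3 / k) with hU | hU
    · -- the gap
      have hk0 : (0 : ℝ) < k := by linarith
      have hku1 : 1 / 4 / Real.log S.P ≤ |k * u| := by
        rw [Par.log_P, abs_mul, abs_of_pos hk0]
        rw [div_lt_iff₀ (by positivity)] at hA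
        rw [div_le_iff₀ hLpos]
        nlinarith
      have hku2 : |k * u| ≤ S.X ^ 3 := by
        rw [abs_mul, abs_of_pos hk0]
        rw [le_div_iff₀ hk0] at hU
        linarith
      have h1 := hG S.X S.P (k * u) e4 le_rfl hku1 hku2 ((-1) ^ k) (by simp)
      have hsubB : Pool.Agent.H83.VU.PQ S.P (S.P ^ b) ⊆ Pr S.P (S.P ^ B) := by
        intro p hp
        have hp' : p ∈ Pr S.P (S.P ^ b) := hp
        rw [mem_Pr (by positivity)] at hp' ⊢
        exact ⟨hp'.1, hp'.2.1.trans (pow_le_pow_right₀ hP1 (le_max_left _ _)), hp'.2.2⟩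
      have h2 : c ≤ ∑ p ∈ Pr S.P (S.P ^ B), (2 * m₁ ^ 2) * (1 / (p : ℝ) *
          (1 + (χ (p : ZMod d) * ee (S.l p * ξ')).re) + 1 / (p : ℝ) * (|u| * (S.h / 2))) := by
        refine h1.trans ?_
        refine le_trans (sum_le_sum_of_subset_of_nonneg hsubB fun p _ _ => by positivity) ?_
        refine sum_le_sum fun p hp => ?_
        obtain ⟨hpp, hdp⟩ := hmem p hp
        obtain ⟨hun, hord⟩ := chi_unit hd1 χ hpp hdp
        set w : ℂ := χ (p : ZMod d) * Pool.Agent.H83.VU.ni u p with hwdef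
        have hw1 : ‖w‖ = 1 := by rw [hwdef, norm_mul, hun, norm_ni, one_mul]
        have hwk : Pool.Agent.H83.VU.ni (k * u) p = w ^ k := by
          rw [hwdef, mul_pow, hk, hord, one_mul, ni_eq, ni_eq, ← Complex.exp_nat_mul]
          congr 1
          push_cast
          ring
        rw [hwk]
        have h3 := pow_near w hw1 k
        have h4 : ‖w ^ k - (-1) ^ k‖ ^ 2 ≤ (k * ‖w + 1‖) ^ 2 :=
          pow_le_pow_left₀ (norm_nonneg _) h3 2
        have h4e : ((k : ℝ) * ‖w + 1‖) ^ 2 = (k : ℝ) ^ 2 * (2 * (1 + w.re)) := by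
          rw [mul_pow, one_add_re hw1]
        rw [h4e] at h4
        have h5 : 0 ≤ 1 + w.re := one_add_re_nonneg hw1.le
        have h6 : (k : ℝ) ^ 2 ≤ m₁ ^ 2 := pow_le_pow_left₀ hk0.le hkm 2
        have h7 : ‖w ^ k - (-1) ^ k‖ ^ 2 ≤ 2 * m₁ ^ 2 * (1 + w.re) := by
          refine h4.trans ?_
          nlinarith
        have h8 : w.re ≤ (χ (p : ZMod d) * ee (S.l p * ξ')).re + |u| * (S.h / 2) := by
          have h9 : ‖w - χ (p : ZMod d) * ee (S.l p * ξ')‖ ≤ |u| * (S.h / 2) := by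
            rw [hwdef, ← mul_sub, norm_mul, hun, one_mul, norm_sub_rev]
            exact hdist p hp
          have h10 := (Complex.re_le_norm _).trans h9
          rw [Complex.sub_re] at h10
          linarith
        have h9 : ‖w ^ k - (-1) ^ k‖ ^ 2 ≤ 2 * m₁ ^ 2 *
            ((1 + (χ (p : ZMod d) * ee (S.l p * ξ')).re) + |u| * (S.h / 2)) := by
          refine h7.trans (mul_le_mul_of_nonneg_left ?_ (by positivity))
          linarith
        have h10 : (0 : ℝ) ≤ 1 / (p : ℝ) := by positivity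
        calc 1 / (p : ℝ) * ‖w ^ k - (-1) ^ k‖ ^ 2 ≤ 1 / (p : ℝ) * (2 * m₁ ^ 2 *
            ((1 + (χ (p : ZMod d) * ee (S.l p * ξ')).re) + |u| * (S.h / 2))) :=
              mul_le_mul_of_nonneg_left h9 h10
          _ = _ := by ring
      rw [← mul_sum, sum_add_distrib, ← sum_mul] at h2
      have h3 : ∑ p ∈ Pr S.P (S.P ^ B), 1 / (p : ℝ) ≤ B := hXb S.X e2
      have h4 : |u| * (S.h / 2) ≤ 1 / (2 * S.X) := by
        have h5 := hS.hX5
        have hU' : |u| ≤ S.X ^ 3 := hU.trans (div_le_self (by positivity) hk1r)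
        rw [le_div_iff₀ (by positivity)]
        have h6 : |u| * (S.h / 2) * (2 * S.X) = |u| * S.h * S.X := by ring
        rw [h6]
        have h7 : |u| * S.h * S.X ≤ S.X ^ 3 * S.h * S.X := by
          refine mul_le_mul_of_nonneg_right ?_ hX0.le
          exact mul_le_mul_of_nonneg_right hU' hh.le
        have h8 : S.X ^ 3 * S.h * S.X ≤ S.h * S.X ^ 5 := by
          have h9 : S.X ^ 4 ≤ S.X ^ 5 := pow_le_pow_right₀ (by linarith) (by norm_num)
          have h10 := mul_le_mul_of_nonneg_left h9 hh.le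
          calc S.X ^ 3 * S.h * S.X = S.h * S.X ^ 4 := by ring
            _ ≤ S.h * S.X ^ 5 := h10
        linarith
      have h5 : (2 * m₁ ^ 2) * ((∑ p ∈ Pr S.P (S.P ^ B), 1 / (p : ℝ)) * (|u| * (S.h / 2))) ≤
          c / 2 := by
        have h6 : (∑ p ∈ Pr S.P (S.P ^ B), 1 / (p : ℝ)) * (|u| * (S.h / 2)) ≤
            B * (1 / (2 * S.X)) := mul_le_mul h3 h4 (by positivity) (by positivity)
        calc _ ≤ (2 * m₁ ^ 2) * (B * (1 / (2 * S.X))) :=
              mul_le_mul_of_nonneg_left h6 (by positivity)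
          _ ≤ c / 2 := by
              rw [div_le_iff₀ hc] at e5
              have e : (2 * m₁ ^ 2) * (B * (1 / (2 * S.X))) = (B * (2 * m₁ ^ 2)) / (2 * S.X) := by
                field_simp
              rw [e, div_le_iff₀ (by positivity)]
              linarith
      have h6 : c / 2 ≤ (2 * m₁ ^ 2) * ∑ p ∈ Pr S.P (S.P ^ B), 1 / (p : ℝ) *
          (1 + (χ (p : ZMod d) * ee (S.l p * ξ')).re) := by
        rw [mul_add] at h2
        linarith
      have h7 : c / (4 * m₁ ^ 2) ≤ ∑ p ∈ Pr S.P (S.P ^ B), 1 / (p : ℝ) *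
          (1 + (χ (p : ZMod d) * ee (S.l p * ξ')).re) := by
        rw [div_le_iff₀ (by positivity)]
        linarith
      refine (min_le_right _ _).trans ?_
      linarith
    · -- large frequencies
      have hVξ : 1 ≤ (S.V : ℝ) * |ξ'| := by
        have h1 : |ξ'| = |u| * S.h / (2 * Real.pi) := by
          rw [hu, abs_div, abs_mul, abs_of_pos hh, abs_of_pos (by positivity : 0 < 2 * Real.pi)]
          have := Real.pi_pos
          field_simp
        have hU' : S.X ^ 3 / m₁ ≤ |u| := by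
          refine le_trans ?_ hU.le
          exact div_le_div_of_nonneg_left (by positivity) (by linarith) hkm
        have h2 : S.rho ^ 2 / 2 * (S.X ^ 3 / m₁) ≤ (S.V : ℝ) * S.h * |u| :=
          mul_le_mul hV1 hU' (by positivity) (by positivity)
        have h3 : S.X ≤ S.rho ^ 2 * S.X ^ 3 := by
          have h4 : 1 ≤ S.rho * S.X := by
            rwa [div_le_iff₀ hX0] at hrX
          calc S.X ≤ (S.rho * S.X) ^ 2 * S.X := le_mul_of_one_le_left hX0.le (one_le_pow₀ h4)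
            _ = S.rho ^ 2 * S.X ^ 3 := by ring
        have h6 : 13 / 2 ≤ S.rho ^ 2 / 2 * (S.X ^ 3 / m₁) := by
          have e : S.rho ^ 2 / 2 * (S.X ^ 3 / m₁) = S.rho ^ 2 * S.X ^ 3 / (2 * m₁) := by
            field_simp
          rw [e, le_div_iff₀ (by positivity)]
          linarith
        rw [h1, ← mul_div_assoc, le_div_iff₀ (by positivity)]
        have h4 : 2 * Real.pi ≤ 13 / 2 := by linarith [Real.pi_lt_d2]
        have h5 : (S.V : ℝ) * (|u| * S.h) = (S.V : ℝ) * S.h * |u| := by ring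
        rw [h5]
        linarith
      have h1 := hAVG S.V ξ' hV hξ hVξ
      refine (min_le_left _ _).trans ?_
      linarith [hT1]

end Pool.Agent.H83.GS
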