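import Pool.Agent.H83.GS.TX2

/-!
# Rationality: many prime multiples close to few numbers
-/

set_option autoImplicit false

open Finset Pool.Agent.H6.N4D

namespace Pool.Agent.H83.GS

theorem pf_TOT : T_TOT := by
  intro m b hb hm
  have hm1 : 1 ≤ m := (Nat.totient_pos.2 hb).trans_le hm
  apply Nat.le_of_dvd (Nat.factorial_pos _)
  rw [Nat.dvd_iff_prime_pow_dvd_dvd]
  intro p k hp hpk
  rcases Nat.eq_zero_or_pos k with rfl | hk
  · simp
  · have h1 : Nat.totient (p ^ k) ∣ Nat.totient b := Nat.totient_dvd_of_dvd hpk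
    have h2 : Nat.totient (p ^ k) ≤ m :=
      (Nat.le_of_dvd (Nat.totient_pos.2 hb) h1).trans hm
    rw [Nat.totient_prime_pow hp hk] at h2
    have h3 : p ^ k = p ^ (k - 1) * p := by
      rw [← pow_succ]
      congr 1
      omega
    have h4 : p ≤ 2 * (p - 1) := by
      have := hp.two_le
      omega
    have h5 : p ^ k ≤ 2 * m := by
      calc p ^ k = p ^ (k - 1) * p := h3
        _ ≤ p ^ (k - 1) * (2 * (p - 1)) := Nat.mul_le_mul_left _ h4
        _ = 2 * (p ^ (k - 1) * (p - 1)) := by ring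
        _ ≤ 2 * m := Nat.mul_le_mul_left _ h2
    exact Nat.dvd_factorial (pow_pos hp.pos k) h5

theorem dvd_of_nd (b : ℕ) (hb : 1 ≤ b) (N : ℤ) (h : nd ((N : ℝ) / b) < 1 / b) : (b : ℤ) ∣ N := by
  obtain ⟨k, hk⟩ := exists_int ((N : ℝ) / b)
  rw [← hk] at h
  have hb0 : (0 : ℝ) < b := by exact_mod_cast hb
  have h1 : |(N : ℝ) - k * b| < 1 := by
    have e : (N : ℝ) - k * b = ((N : ℝ) / b - k) * b := by
      field_simp
    rw [e, abs_mul, abs_of_pos hb0]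
    rw [lt_div_iff₀ hb0] at h
    exact h
  have h2 : |N - k * b| < 1 := by exact_mod_cast h1
  have h3 : N - k * b = 0 := Int.abs_lt_one_iff.1 h2
  exact ⟨k, by linarith⟩

theorem pf_RAT (hBTW : T_BTW) : T_RAT := by
  intro r₀ hr
  obtain ⟨C, X₁, hC, hBT⟩ := hBTW
  have hr0 : (1 : ℝ) ≤ r₀ := by exact_mod_cast hr
  obtain ⟨X₂, hX₂⟩ := LL_large (4 * (16 * r₀))
  refine ⟨(2 * ⌊16 * C * r₀⌋₊).factorial, max X₁ X₂, Nat.factorial_pos _, ?_⟩
  intro X hX A β e γ ι hA hW he0 he hι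
  have hX1 : X₁ ≤ X := (le_max_left _ _).trans hX
  have hL := hX₂ X ((le_max_right _ _).trans hX)
  have hPP : PP X = Real.exp (LL X) := rfl
  have hP16 : 16 * (r₀ : ℝ) ≤ PP X ^ (1 / 4 : ℝ) := by
    rw [hPP, ← Real.exp_mul]
    have h1 := Real.add_one_le_exp (LL X * (1 / 4))
    linarith
  have hP1 : 1 ≤ PP X := by
    rw [hPP]
    exact Real.one_le_exp (by linarith)
  have hPr : 16 * (r₀ : ℝ) ≤ PP X := by
    refine hP16.trans ?_
    calc PP X ^ (1 / 4 : ℝ) ≤ PP X ^ (1 : ℝ) :=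
          Real.rpow_le_rpow_of_exponent_le hP1 (by norm_num)
      _ = PP X := Real.rpow_one _
  have hmem : ∀ p ∈ A, PP X < p ∧ (p : ℝ) ≤ PP X ^ 2 ∧ p.Prime := fun p hp =>
    (mem_Pr (by positivity)).1 (hA hp)
  -- the class
  obtain ⟨i, hi⟩ : ∃ i, 1 / (8 * (r₀ : ℝ)) ≤ ∑ p ∈ A.filter (fun p => ι p = i), 1 / (p : ℝ) := by
    by_contra hcon
    push Not at hcon
    have h1 : ∑ i ∈ range r₀, ∑ p ∈ A.filter (fun p => ι p = i), 1 / (p : ℝ) =
        ∑ p ∈ A, 1 / (p : ℝ) :=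
      Finset.sum_fiberwise_of_maps_to (fun p hp => mem_range.2 (hι p hp).1) _
    have h2 : ∑ i ∈ range r₀, ∑ p ∈ A.filter (fun p => ι p = i), 1 / (p : ℝ) <
        ∑ i ∈ range r₀, 1 / (8 * (r₀ : ℝ)) :=
      Finset.sum_lt_sum_of_nonempty ⟨0, mem_range.2 (by omega)⟩ fun i _ => hcon i
    rw [h1, sum_const, card_range, nsmul_eq_mul] at h2
    have h3 : (r₀ : ℝ) * (1 / (8 * (r₀ : ℝ))) = 1 / 8 := by field_simp
    linarith
  set A' : Finset ℕ := A.filter (fun p => ι p = i) with hA'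
  have hmem' : ∀ p ∈ A', p ∈ A ∧ ι p = i := fun p hp => mem_filter.1 hp
  -- two elements
  have hcard : 1 < A'.card := by
    by_contra hcon
    push Not at hcon
    have h1 : ∑ p ∈ A', 1 / (p : ℝ) ≤ A'.card • (1 / PP X) :=
      Finset.sum_le_card_nsmul _ _ _ fun p hp =>
        one_div_le_one_div_of_le (by linarith) (hmem p (hmem' p hp).1).1.le
    rw [nsmul_eq_mul] at h1
    have h2 : (A'.card : ℝ) ≤ 1 := by exact_mod_cast hcon
    have h3 : (A'.card : ℝ) * (1 / PP X) ≤ 1 * (1 / PP X) :=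
      mul_le_mul_of_nonneg_right h2 (by positivity)
    have h4 : 1 / PP X ≤ 1 / (16 * (r₀ : ℝ)) := one_div_le_one_div_of_le (by positivity) hPr
    have h5 : 1 / (16 * (r₀ : ℝ)) < 1 / (8 * (r₀ : ℝ)) :=
      one_div_lt_one_div_of_lt (by positivity) (by linarith)
    linarith
  obtain ⟨p₁, hp₁, p₂, hp₂, hne⟩ := Finset.one_lt_card.1 hcard
  -- differences
  have hdiff : ∀ p ∈ A', ∀ q ∈ A', nd ((((p : ℤ) - q : ℤ) : ℝ) * β) ≤ 2 * e := by
    intro p hp q hq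
    obtain ⟨hpA, hpi⟩ := hmem' p hp
    obtain ⟨hqA, hqi⟩ := hmem' q hq
    have h1 := (hι p hpA).2
    have h2 := (hι q hqA).2
    rw [hpi] at h1
    rw [hqi] at h2
    have e1 : (((p : ℤ) - q : ℤ) : ℝ) * β = (p * β - γ i) - (q * β - γ i) := by
      push_cast
      ring
    rw [e1]
    exact (nd_sub_le _ _).trans (by linarith)
  have habs : ∀ p ∈ A', ∀ q ∈ A', |(((p : ℤ) - q : ℤ) : ℝ)| ≤ PP X ^ 2 := by
    intro p hp q hq
    have h1 := hmem p (hmem' p hp).1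
    have h2 := hmem q (hmem' q hq).1
    push_cast
    rw [abs_le]
    constructor
    · linarith [h1.1, h2.2.1, PP_pos X]
    · linarith [h2.1, h1.2.1, PP_pos X]
  -- the fraction
  obtain ⟨D, hD⟩ : ∃ D : ℤ, D = (p₁ : ℤ) - p₂ := ⟨_, rfl⟩
  have hD0 : D ≠ 0 := by
    rw [hD]
    intro h
    apply hne
    have : (p₁ : ℤ) = p₂ := by linarith
    exact_mod_cast this
  have hDr : (D : ℝ) ≠ 0 := by exact_mod_cast hD0
  have hD1 : (1 : ℝ) ≤ |(D : ℝ)| := by
    have : 1 ≤ |D| := Int.one_le_abs hD0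
    exact_mod_cast this
  have hDP : |(D : ℝ)| ≤ PP X ^ 2 := by
    rw [hD]
    exact habs p₁ hp₁ p₂ hp₂
  have hDe : nd ((D : ℝ) * β) ≤ 2 * e := by
    rw [hD]
    exact hdiff p₁ hp₁ p₂ hp₂
  obtain ⟨k, hk⟩ := exists_int ((D : ℝ) * β)
  rw [← hk] at hDe
  set ρ : ℚ := (k : ℚ) / D with hρ
  set b : ℕ := ρ.den with hb
  have hb1 : 1 ≤ b := ρ.pos
  have hb0 : (0 : ℝ) < b := by exact_mod_cast hb1
  have hbD : (b : ℤ) ∣ D := by
    rw [hb, hρ, ← Rat.divInt_eq_div]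
    exact Rat.den_dvd k D
  have hbP : (b : ℝ) ≤ PP X ^ 2 := by
    have h1 : (b : ℤ) ≤ |D| := Int.le_of_dvd (abs_pos.2 hD0) ((dvd_abs _ _).2 hbD)
    have h2 : (b : ℝ) ≤ |(D : ℝ)| := by exact_mod_cast h1
    exact h2.trans hDP
  have hfrac : ((ρ.num : ℝ) / b) = (k : ℝ) / D := by
    have h1 : (ρ : ℝ) = (ρ.num : ℝ) / ρ.den := Rat.cast_def ρ
    rw [← h1, hρ]
    push_cast
    rfl
  have hδ : |β - (ρ.num : ℝ) / b| ≤ 2 * e := by
    rw [hfrac]
    have e1 : β - (k : ℝ) / D = ((D : ℝ) * β - k) / D := by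
      field_simp
    rw [e1, abs_div]
    exact (div_le_self (abs_nonneg _) hD1).trans hDe
  have hcop : Int.gcd ρ.num b = 1 := by
    have := ρ.reduced
    rw [Int.gcd_def]
    exact this
  -- the residue class
  have hclass : ∀ p ∈ A', ∀ q ∈ A', (p : ℤ) ≡ q [ZMOD b] := by
    intro p hp q hq
    have h1 := hdiff p hp q hq
    have h2 := habs p hp q hq
    set N : ℤ := (p : ℤ) - q with hN
    have h3 : nd (((N * ρ.num : ℤ) : ℝ) / b) ≤ 2 * e + PP X ^ 2 * (2 * e) := by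
      have e1 : ((N * ρ.num : ℤ) : ℝ) / b = (N : ℝ) * β - (N : ℝ) * (β - (ρ.num : ℝ) / b) := by
        push_cast
        field_simp
        ring
      rw [e1]
      refine (nd_sub_le _ _).trans (add_le_add h1 ?_)
      refine (nd_le_abs _).trans ?_
      rw [abs_mul]
      exact mul_le_mul h2 hδ (abs_nonneg _) (by positivity)
    have h4 : nd (((N * ρ.num : ℤ) : ℝ) / b) < 1 / b := by
      refine h3.trans_lt ?_
      have hPp : 0 < PP X := PP_pos X
      rw [le_div_iff₀ (by positivity)] at he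
      rw [lt_div_iff₀ hb0]
      have h5 : (2 * e + PP X ^ 2 * (2 * e)) * b ≤ (2 * e + PP X ^ 2 * (2 * e)) * PP X ^ 2 :=
        mul_le_mul_of_nonneg_left hbP (by positivity)
      have h6 : e * PP X ^ 2 ≤ e * PP X ^ 4 := by
        refine mul_le_mul_of_nonneg_left ?_ he0
        exact pow_le_pow_right₀ hP1 (by norm_num)
      nlinarith
    have h5 := dvd_of_nd b hb1 _ h4
    have h6 : (b : ℤ) ∣ N := by
      refine Int.dvd_of_dvd_mul_left_of_gcd_one h5 ?_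
      rw [Int.gcd_comm]
      exact hcop
    exact (Int.modEq_iff_dvd.2 (by
      rw [← Int.dvd_neg, neg_sub]
      exact h6))
  have hBT' := hBT X hX1 b hb1 A' ((Finset.filter_subset _ _).trans hA) hclass
  have hφ : 0 < Nat.totient b := Nat.totient_pos.2 hb1
  have hφr : (0 : ℝ) < Nat.totient b := by exact_mod_cast hφ
  have hφle : Nat.totient b ≤ ⌊16 * C * r₀⌋₊ := by
    apply Nat.le_floor
    have h1 : 1 / (8 * (r₀ : ℝ)) ≤ C / (Nat.totient b : ℝ) + 1 / PP X ^ (1 / 4 : ℝ) :=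
      hi.trans hBT'
    have h2 : 1 / PP X ^ (1 / 4 : ℝ) ≤ 1 / (16 * (r₀ : ℝ)) :=
      one_div_le_one_div_of_le (by positivity) hP16
    have h3 : 1 / (8 * (r₀ : ℝ)) = 1 / (16 * (r₀ : ℝ)) + 1 / (16 * (r₀ : ℝ)) := by
      field_simp
      norm_num
    have h4 : 1 / (16 * (r₀ : ℝ)) ≤ C / (Nat.totient b : ℝ) := by linarith
    rw [div_le_div_iff₀ (by positivity) hφr] at h4
    linarith
  -- the numerator
  obtain ⟨a, ha⟩ : ∃ a : ℕ, (a : ℤ) = ρ.num % b := by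
    have h1 : 0 ≤ ρ.num % (b : ℤ) := Int.emod_nonneg _ (by
      have : (0 : ℤ) < b := by exact_mod_cast hb1
      exact this.ne')
    exact ⟨(ρ.num % (b : ℤ)).toNat, Int.toNat_of_nonneg h1⟩
  have hab : a < b := by
    have h1 : ρ.num % (b : ℤ) < b := Int.emod_lt_of_pos _ (by exact_mod_cast hb1)
    rw [← ha] at h1
    exact_mod_cast h1
  refine ⟨b, a, hb1, pf_TOT _ b hb1 hφle, hab, ?_, ?_⟩
  · have h1 : Int.gcd (a : ℤ) b = 1 := by
      rw [ha, Int.gcd_emod]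
      exact hcop
    exact_mod_cast h1
  · have h1 : (ρ.num : ℝ) / b = (a : ℝ) / b + ((ρ.num / (b : ℤ) : ℤ) : ℝ) := by
      have h2 := Int.emod_add_mul_ediv ρ.num (b : ℤ)
      have h3 : (ρ.num : ℝ) = (a : ℝ) + b * ((ρ.num / (b : ℤ) : ℤ) : ℝ) := by
        rw [← ha] at h2
        exact_mod_cast h2.symm
      rw [h3]
      field_simp
    have h2 : β - (a : ℝ) / b = (β - (ρ.num : ℝ) / b) + ((ρ.num / (b : ℤ) : ℤ) : ℝ) := by
      rw [h1]
      ring
    rw [h2, nd_add_int]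
    exact (nd_le_abs _).trans hδ

end Pool.Agent.H83.GS
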