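import Pool.Agent.H83.GS.TX
import Pool.Agent.H95.N4D.SPC

/-!
# Comparison of quadratic forms with unimodular coefficients
-/

set_option autoImplicit false

open Finset Pool.Agent.H6.N4D Pool.Agent.H95.N4D

namespace Pool.Agent.H83.GS

theorem summable_corC (g : ℤ → ℂ) (hg : (Function.support g).Finite) (w : ℤ) :
    Summable fun t : ℤ => g (t + w) * (starRingEnd ℂ) (g t) := by
  apply summable_of_hasFiniteSupport
  refine hg.subset ?_
  intro t ht
  rw [Function.mem_support] at ht ⊢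
  intro h
  apply ht
  rw [h]; simp

theorem Dx_eq (g : ℤ → ℂ) (hg : (Function.support g).Finite) (z : ℂ) (hz : ‖z‖ = 1) (w : ℤ) :
    Dx g z w = 2 * ∑' t : ℤ, ‖g t‖ ^ 2 +
      2 * ((starRingEnd ℂ) z * ∑' t : ℤ, g (t + w) * (starRingEnd ℂ) (g t)).re := by
  unfold Dx
  have h1 : ∀ t : ℤ, ‖g (t + w) + z * g t‖ ^ 2 = ‖g (t + w)‖ ^ 2 + ‖g t‖ ^ 2 +
      2 * ((starRingEnd ℂ) z * (g (t + w) * (starRingEnd ℂ) (g t))).re := by
    intro t
    rw [norm_add_sq_c, norm_mul, hz, one_mul, map_mul]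
    congr 3
    ring
  simp only [h1]
  have hs := summable_corC g hg w
  have hs2 : Summable fun t : ℤ =>
      ((starRingEnd ℂ) z * (g (t + w) * (starRingEnd ℂ) (g t))).re :=
    (Complex.reCLM.summable (hs.mul_left _))
  rw [Summable.tsum_add ((summable_sq_shift g hg w).add (summable_sq g hg)) (hs2.mul_left 2),
    Summable.tsum_add (summable_sq_shift g hg w) (summable_sq g hg), tsum_sq_shift, tsum_mul_left]
  have h2 : ∑' t : ℤ, ((starRingEnd ℂ) z * (g (t + w) * (starRingEnd ℂ) (g t))).re =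
      ((starRingEnd ℂ) z * ∑' t : ℤ, g (t + w) * (starRingEnd ℂ) (g t)).re := by
    rw [← tsum_mul_left, Complex.re_tsum (hs.mul_left _)]
  rw [h2]
  ring

theorem pf_SPX (hPSC : T_PSC) : T_SPX := by
  intro g hg ι κ s s' c₀ c c' z l l' hz h
  have key := hPSC g hg (ι ⊕ κ) (s.disjSum s') (∑ i ∈ s, c i + ∑ j ∈ s', c' j - c₀)
    (fun o => o.elim (fun i => (c i : ℂ) * (starRingEnd ℂ) (z i)) (fun j => - (c' j : ℂ)))
    (fun o => o.elim l l') (by
      intro ξ
      rw [Finset.sum_disjSum]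
      simp only [Sum.elim_inl, Sum.elim_inr]
      have h1 := h ξ
      have h2 : ∀ i ∈ s, (((c i : ℂ) * (starRingEnd ℂ) (z i)) * ee (l i * ξ)).re =
          c i * ((starRingEnd ℂ) (z i) * ee (l i * ξ)).re := by
        intro i _
        rw [mul_assoc, Complex.re_ofReal_mul]
      have h3 : ∀ j ∈ s', (-(c' j : ℂ) * ee (l' j * ξ)).re =
          - (c' j * Real.cos (2 * Real.pi * ξ * l' j)) := by
        intro j _
        rw [neg_mul, Complex.neg_re, Complex.re_ofReal_mul]
        unfold ee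
        rw [Complex.exp_ofReal_mul_I_re]
        congr 3
        ring
      rw [Finset.sum_congr rfl h2, Finset.sum_congr rfl h3]
      simp only [mul_sub, mul_add, mul_one, Finset.sum_sub_distrib, Finset.sum_add_distrib] at h1
      simp only [Finset.sum_neg_distrib]
      linarith)
  rw [Finset.sum_disjSum] at key
  simp only [Sum.elim_inl, Sum.elim_inr] at key
  have hR : ∑ i ∈ s, c i * Dx g (z i) (l i) = 2 * (∑ i ∈ s, c i) * ∑' t : ℤ, ‖g t‖ ^ 2 +
      2 * ∑ i ∈ s, (((c i : ℂ) * (starRingEnd ℂ) (z i)) *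
        ∑' t : ℤ, g (t + l i) * (starRingEnd ℂ) (g t)).re := by
    rw [Finset.mul_sum, Finset.sum_mul, Finset.mul_sum, ← Finset.sum_add_distrib]
    apply Finset.sum_congr rfl
    intro i hi
    rw [Dx_eq g hg (z i) (hz i hi) (l i), mul_assoc ((c i : ℂ)), Complex.re_ofReal_mul]
    ring
  have hR' : ∑ i ∈ s', c' i * Dg g (l' i) = 2 * (∑ i ∈ s', c' i) * ∑' t : ℤ, ‖g t‖ ^ 2 +
      2 * ∑ i ∈ s', (-(c' i : ℂ) * ∑' t : ℤ, g (t + l' i) * (starRingEnd ℂ) (g t)).re := by
    rw [Finset.mul_sum, Finset.sum_mul, Finset.mul_sum, ← Finset.sum_add_distrib]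
    apply Finset.sum_congr rfl
    intro i _
    rw [Dg_eq g hg (l' i), neg_mul, Complex.neg_re, Complex.re_ofReal_mul,
      ← Complex.re_tsum (summable_corC g hg _)]
    ring
  rw [hR, hR']
  linarith

end Pool.Agent.H83.GS
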