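import Pool.Agent.H83.GS.PSC
import Pool.Agent.H83.GS.SPX
import Pool.Agent.H83.GS.MPX
import Pool.Agent.H83.GS.PWX
import Pool.Agent.H83.GS.FINX
import Pool.Agent.H83.GS.BTW
import Pool.Agent.H83.GS.RAT
import Pool.Agent.H19.LF.BTS
import Pool.Agent.H19.LF.BTZ
import Pool.Agent.H78.LF.SEL
import Pool.Agent.H78.LF.SDF
import Pool.Agent.H39.LF.HAR
import Pool.Agent.H6.N4D.All

/-!
# Theorem (G), section 3a: closed facts (characters, Brun-Titchmarsh, rationality)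
-/

set_option autoImplicit false

namespace Pool.Agent.H83.GS

open Pool.Agent.H6.N4D.All

theorem gPSC : T_PSC := pf_PSC
theorem gSPX : T_SPX := pf_SPX gPSC
theorem gMPX : T_MPX := pf_MPX Pool.Agent.H20.VT.M1.pf_M1
theorem gPWX : T_PWX := pf_PWX tWTS tAVG tSIZ gMPX Pool.Agent.H83.VU.aGAP
theorem gFINX : T_FINX := pf_FINX gSPX gPWX tCHI tWTS tSIZ
theorem gBTW : T_BTW := pf_BTW (Pool.Agent.H19.LF.pf_BTS
  (Pool.Agent.H19.LF.pf_BTZ Pool.Agent.H78.LF.pf_SEL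
    (Pool.Agent.H78.LF.pf_SDF Pool.Agent.H39.LF.pf_HAR)))
theorem gRAT : T_RAT := pf_RAT gBTW
theorem gTOT : T_TOT := pf_TOT

end Pool.Agent.H83.GS
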