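import Pool.Agent.H83.GS.TX

/-!
# Spectral positivity with complex coefficients, comparison of quadratic forms
-/

set_option autoImplicit false

open Finset Pool.Agent.H6.N4D

namespace Pool.Agent.H83.GS

theorem cont_ee (a : ℝ) : Continuous fun ξ : ℝ => ee (a * ξ) := by
  unfold ee
  fun_prop

theorem int_ee (n : ℤ) : ∫ ξ in (0 : ℝ)..1, ee (n * ξ) = if n = 0 then 1 else 0 := by
  split_ifs with h
  · subst h
    simp [ee]
  · have h1 : ∀ ξ : ℝ, ee (n * ξ) = Complex.exp ((2 * Real.pi * n * Complex.I) * ξ) := by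
      intro ξ
      unfold ee
      congr 1
      push_cast
      ring
    have hc : (2 * Real.pi * n * Complex.I : ℂ) ≠ 0 := by
      have hn : (n : ℂ) ≠ 0 := by exact_mod_cast h
      have hp : (Real.pi : ℂ) ≠ 0 := by exact_mod_cast Real.pi_ne_zero
      have hI := Complex.I_ne_zero
      exact mul_ne_zero (mul_ne_zero (mul_ne_zero two_ne_zero hp) hn) hI
    simp only [h1]
    rw [integral_exp_mul_complex hc]
    have h2 : Complex.exp ((2 * Real.pi * n * Complex.I : ℂ) * ((1 : ℝ) : ℂ)) = 1 := by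
      rw [Complex.exp_eq_one_iff]
      exact ⟨n, by push_cast; ring⟩
    rw [h2]
    simp

theorem conj_ee (x : ℝ) : (starRingEnd ℂ) (ee x) = ee (-x) := by
  unfold ee
  rw [← Complex.exp_conj]
  congr 1
  rw [map_mul, Complex.conj_I, Complex.conj_ofReal]
  push_cast
  ring

theorem fourier_ee (g : ℤ → ℂ) (F : Finset ℤ) (hF : ∀ t, t ∉ F → g t = 0) (l : ℤ) :
    ∫ ξ in (0 : ℝ)..1, ((∑ t ∈ F, g t * ee ((-t : ℝ) * ξ)) *
      (starRingEnd ℂ) (∑ t ∈ F, g t * ee ((-t : ℝ) * ξ))) * ee (l * ξ) =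
      ∑ t ∈ F, g (t + l) * (starRingEnd ℂ) (g t) := by
  have h1 : ∀ ξ : ℝ, ((∑ t ∈ F, g t * ee ((-t : ℝ) * ξ)) *
      (starRingEnd ℂ) (∑ t ∈ F, g t * ee ((-t : ℝ) * ξ))) * ee (l * ξ) =
      ∑ t ∈ F, ∑ s ∈ F, (g s * (starRingEnd ℂ) (g t)) * ee (((t - s + l : ℤ) : ℝ) * ξ) := by
    intro ξ
    rw [map_sum, Finset.sum_mul_sum, Finset.sum_comm, Finset.sum_mul]
    refine Finset.sum_congr rfl fun t _ => ?_
    rw [Finset.sum_mul]
    refine Finset.sum_congr rfl fun s _ => ?_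
    rw [map_mul, conj_ee]
    have h2 : ee (((t - s + l : ℤ) : ℝ) * ξ) =
        ee ((-s : ℝ) * ξ) * ee (-((-t : ℝ) * ξ)) * ee (l * ξ) := by
      rw [← ee_add, ← ee_add]
      congr 1
      push_cast
      ring
    rw [h2]
    ring
  simp only [h1]
  rw [intervalIntegral.integral_finsetSum]
  · refine Finset.sum_congr rfl fun t _ => ?_
    rw [intervalIntegral.integral_finsetSum]
    · simp only [intervalIntegral.integral_const_mul, int_ee]
      by_cases htl : t + l ∈ F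
      · rw [Finset.sum_eq_single (t + l)]
        · rw [if_pos (by ring), mul_one]
        · intro s _ hs
          rw [if_neg (fun h => hs (by linarith)), mul_zero]
        · intro h
          exact absurd htl h
      · rw [hF _ htl, zero_mul]
        refine Finset.sum_eq_zero fun s hs => ?_
        rw [if_neg, mul_zero]
        intro h
        apply htl
        have : s = t + l := by linarith
        rwa [← this]
    · intro s _
      exact ((cont_ee _).const_mul _).intervalIntegrable _ _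
  · intro t _
    refine Continuous.intervalIntegrable ?_ _ _
    exact continuous_finsetSum _ fun s _ => (cont_ee _).const_mul _

theorem pf_PSC : T_PSC := by
  intro g hg ι s c₀ c l hpos
  set F : Finset ℤ := hg.toFinset with hFdef
  have hF : ∀ t, t ∉ F → g t = 0 := by
    intro t ht
    by_contra h
    exact ht (by rw [hFdef, Set.Finite.mem_toFinset]; exact h)
  set G : ℝ → ℂ := fun ξ => ∑ t ∈ F, g t * ee ((-t : ℝ) * ξ) with hG
  have hGc : Continuous G := continuous_finsetSum _ fun t _ => (cont_ee _).const_mul _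
  have hc2 : Continuous fun ξ : ℝ => G ξ * (starRingEnd ℂ) (G ξ) :=
    hGc.mul (Complex.continuous_conj.comp hGc)
  have hl : ∀ m : ℤ, ∑' t : ℤ, g (t + m) * (starRingEnd ℂ) (g t) =
      ∫ ξ in (0 : ℝ)..1, (G ξ * (starRingEnd ℂ) (G ξ)) * ee (m * ξ) := by
    intro m
    rw [show (∫ ξ in (0 : ℝ)..1, (G ξ * (starRingEnd ℂ) (G ξ)) * ee (m * ξ)) = _ from
      fourier_ee g F hF m, tsum_eq_sum (s := F)]
    intro t ht
    rw [hF t ht, map_zero, mul_zero]
  have h0 : ∑' t : ℤ, ‖g t‖ ^ 2 = ∫ ξ in (0 : ℝ)..1, ‖G ξ‖ ^ 2 := by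
    have h1 := fourier_ee g F hF 0
    have h2 : ∀ ξ : ℝ, ((∑ t ∈ F, g t * ee ((-t : ℝ) * ξ)) *
      (starRingEnd ℂ) (∑ t ∈ F, g t * ee ((-t : ℝ) * ξ))) * ee (((0 : ℤ) : ℝ) * ξ) =
        ((‖G ξ‖ ^ 2 : ℝ) : ℂ) := by
      intro ξ
      have : ee (((0 : ℤ) : ℝ) * ξ) = 1 := by simp [ee]
      rw [this, mul_one, Complex.mul_conj', ← Complex.ofReal_pow]
    simp only [h2, add_zero] at h1
    rw [intervalIntegral.integral_ofReal] at h1
    have h3 : ∑' t : ℤ, ‖g t‖ ^ 2 = ∑ t ∈ F, ‖g t‖ ^ 2 := by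
      apply tsum_eq_sum
      intro t ht
      rw [hF t ht, norm_zero]
      norm_num
    rw [h3]
    have h4 : ((∑ t ∈ F, ‖g t‖ ^ 2 : ℝ) : ℂ) = ∑ t ∈ F, g t * (starRingEnd ℂ) (g t) := by
      push_cast
      exact Finset.sum_congr rfl fun t _ => by rw [Complex.mul_conj']
    rw [← h4] at h1
    exact_mod_cast h1.symm
  rw [h0]
  simp only [hl]
  have hcc : ∀ m : ℤ, Continuous fun ξ : ℝ => (G ξ * (starRingEnd ℂ) (G ξ)) * ee (m * ξ) :=
    fun m => hc2.mul (cont_ee _)
  have hre : ∀ i ∈ s, (c i * ∫ ξ in (0 : ℝ)..1, (G ξ * (starRingEnd ℂ) (G ξ)) * ee (l i * ξ)).re =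
      ∫ ξ in (0 : ℝ)..1, ‖G ξ‖ ^ 2 * (c i * ee (l i * ξ)).re := by
    intro i _
    rw [← intervalIntegral.integral_const_mul]
    have h2 := Complex.reCLM.intervalIntegral_comp_comm
      (((hcc (l i)).const_mul (c i)).intervalIntegrable (μ := MeasureTheory.volume) 0 1)
    rw [Complex.reCLM_apply] at h2
    rw [← h2]
    refine intervalIntegral.integral_congr fun ξ _ => ?_
    show (c i * ((G ξ * (starRingEnd ℂ) (G ξ)) * ee (l i * ξ))).re = _
    rw [Complex.mul_conj', ← Complex.ofReal_pow,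
      show c i * (((‖G ξ‖ ^ 2 : ℝ) : ℂ) * ee (l i * ξ)) =
        ((‖G ξ‖ ^ 2 : ℝ) : ℂ) * (c i * ee (l i * ξ)) by ring, Complex.re_ofReal_mul]
  rw [Finset.sum_congr rfl hre]
  have hcr : ∀ i : ι, Continuous fun ξ : ℝ => ‖G ξ‖ ^ 2 * (c i * ee (l i * ξ)).re := by
    intro i
    exact (hGc.norm.pow 2).mul (Complex.continuous_re.comp ((cont_ee _).const_mul _))
  rw [← intervalIntegral.integral_const_mul, ← intervalIntegral.integral_finsetSum,
    ← intervalIntegral.integral_add]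
  · refine intervalIntegral.integral_nonneg zero_le_one fun ξ _ => ?_
    have h3 : c₀ * ‖G ξ‖ ^ 2 + ∑ i ∈ s, ‖G ξ‖ ^ 2 * (c i * ee (l i * ξ)).re =
        ‖G ξ‖ ^ 2 * (c₀ + ∑ i ∈ s, (c i * ee (l i * ξ)).re) := by
      rw [mul_add, Finset.mul_sum]
      ring
    rw [h3]
    exact mul_nonneg (by positivity) (hpos ξ)
  · exact (continuous_const.mul (hGc.norm.pow 2)).intervalIntegrable _ _
  · refine Continuous.intervalIntegrable ?_ _ _
    exact continuous_finsetSum _ fun i _ => hcr i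
  · intro i _
    exact (hcr i).intervalIntegrable _ _

end Pool.Agent.H83.GS
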